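import Mathlib
import Pool.Agent.N972.P17.Defs

/-!
# P17G: genus characters of the vectors of the two ternary lattices of level `17`

For an odd prime `p ≠ 17` an isotropic vector modulo `p` has a sign `psi1 p v` (up to a global sign
which is fixed by the choice of an isotropic vector `e`). For two vectors of norms `n` and `n`
(or `n` and `4 n`), `p` dividing `n` exactly, the product of the signs is the function `rel` of
`S`, `T`, where `S + T = n` (or `2 n`) and `S - T` is the inner product.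
-/

set_option autoImplicit false

namespace Pool.Agent.N844.P17G

open Finset
open Pool.Agent.N969.P15 (V3 ep2)
open Pool.Agent.N972.P17

noncomputable section

/-- the relative sign as a function of `S` and `T` -/
def rel (p n : ℕ) (S T : ℤ) : ℤ :=
  if ¬ (p : ℤ) ∣ T then jacobiSym (-T) p
  else if ¬ (p : ℤ) ∣ T / p then jacobiSym (-((n / p : ℕ) * (T / p))) p
  else jacobiSym ((n / p : ℕ) * (S / p)) p

/-- the product of the relative signs over the primes dividing `a` -/
def sgn (a n : ℕ) (S T : ℤ) : ℤ := ∏ p ∈ a.primeFactors, rel p n S T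

/-- a nonzero isotropic vector modulo `p` -/
def Iso (ip : V3 → V3 → ℤ) (p : ℕ) (v : V3) : Prop :=
  (p : ℤ) ∣ ip v v ∧ ∃ i, ¬ (p : ℤ) ∣ v i

/-- the relative sign of two isotropic vectors modulo `p` -/
def sig (ip : V3 → V3 → ℤ) (p : ℕ) (v w : V3) : ℤ :=
  if ¬ (p : ℤ) ∣ ip v w then jacobiSym (2 * ip v w) p
  else if ¬ (p : ℤ) ∣ v 0 then jacobiSym (v 0 * w 0) p
  else if ¬ (p : ℤ) ∣ v 1 then jacobiSym (v 1 * w 1) p
  else jacobiSym (v 2 * w 2) p

open Classical in
/-- the base vector in the first lattice -/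
def bas (p : ℕ) : V3 := if h : ∃ e, Iso ip1 p e then h.choose else 0

/-- a similitude of factor `4` from the second to the first lattice (`N575.P17.m412`) -/
def m21 (v : V3) : V3 := ![-v 0 - 2 * v 1 + 3 * v 2, -v 0 - v 2, -2 * v 1]

/-- the genus character on the first lattice -/
def psi1 (p : ℕ) (v : V3) : ℤ := sig ip1 p (bas p) v

/-- the genus character on the second lattice -/
def psi2 (p : ℕ) (v : V3) : ℤ := psi1 p (m21 v)

/-- the character attached to a squarefree odd `a` -/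
def Psi1 (a : ℕ) (v : V3) : ℤ := ∏ p ∈ a.primeFactors, psi1 p v

/-- the character attached to a squarefree odd `a` -/
def Psi2 (a : ℕ) (v : V3) : ℤ := ∏ p ∈ a.primeFactors, psi2 p v

/-- the character sum over the vectors of norm `N` in the first lattice -/
def A1 (N : ℤ) (a : ℕ) : ℤ := ∑ v ∈ vec1 N, Psi1 a v

/-- the character sum over the vectors of norm `N` in the second lattice -/
def A2 (N : ℤ) (a : ℕ) : ℤ := ∑ v ∈ vec2 N, Psi2 a v

/-- the hypothesis on `n` and `a` -/
def Adm (n a : ℕ) : Prop :=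
  Squarefree a ∧ Odd a ∧ ¬ 17 ∣ a ∧ ∀ p ∈ a.primeFactors, p ∣ n ∧ ¬ p ^ 2 ∣ n

/-- the squares of the character sums (`n` may be even) -/
def S_AA : Prop := ∀ n a : ℕ, Adm n a →
  3 * A1 n a ^ 2 + A2 n a ^ 2 =
    ∑ T ∈ range (n + 1), sgn a n ((n - T : ℕ) : ℤ) T *
      (3 * cp1 n ((n - T : ℕ) - (T : ℤ)) n + cp2 n ((n - T : ℕ) - (T : ℤ)) n)

/-- the products of the character sums for the norms `n` and `4 n` -/
def S_AA4 : Prop := ∀ n a : ℕ, Adm n a →
  3 * (A1 n a * A1 (4 * n) a) + A2 n a * A2 (4 * n) a =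
    ∑ T ∈ range (2 * n + 1), sgn a n ((2 * n - T : ℕ) : ℤ) T *
      (3 * cp1 n ((2 * n - T : ℕ) - (T : ℤ)) (4 * n) +
        cp2 n ((2 * n - T : ℕ) - (T : ℤ)) (4 * n))

/-- the Hecke relation at `2` with signs -/
def S_HEA : Prop := ∀ n a : ℕ, n % 4 = 3 → Adm n a → jacobiSym a 17 = 1 →
  A1 (4 * n) a = 2 * A1 n a + A2 n a - ep2 n * jacobiSym 2 a * A1 n a ∧
    A2 (4 * n) a = 3 * A1 n a - ep2 n * jacobiSym 2 a * A2 n a

/-- the vanishing if `17` is not a square modulo `a` -/
def S_V17 : Prop := ∀ n a : ℕ, Adm n a → jacobiSym a 17 = -1 → a % 4 = 1 →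
  A1 n a = 0 ∧ A2 n a = 0

/-- the vanishing for `a ≡ 3 mod 4` -/
def S_V4 : Prop := ∀ n a : ℕ, Adm n a → a % 4 = 3 → A1 n a = 0 ∧ A2 n a = 0

/-- the arithmetic side of the bilinear identities with signs -/
def AAs (n N a : ℕ) : ℤ := ∑ T ∈ (range N).filter (fun T => 17 ∣ T),
  sgn a n ((N - T : ℕ) : ℤ) T * loc n (4 * (N - T) * T)

/-- the bilinear identity with signs, norm `n` -/
def S_BILA1 : Prop := ∀ n a : ℕ, Cm n → a ∣ n → a % 4 = 1 →
  12 * AAs n n a = 3 * A1 n a ^ 2 + A2 n a ^ 2 - 2 * rr n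

/-- the bilinear identity with signs, norms `n` and `4 n` -/
def S_BILA2 : Prop := ∀ n a : ℕ, Cm n → a ∣ n → a % 4 = 1 →
  12 * AAs n (2 * n) a = 3 * (A1 n a * A1 (4 * n) a) + A2 n a * A2 (4 * n) a -
    2 * jacobiSym 2 a * rr n

/-- the sum over all divisors `a` of a divisor `D` of `n` (the terms with `a ≡ 3 mod 4` or
`(a / 17) = -1` vanish by `S_V4` and `S_V17`) -/
def S_SUM : Prop := ∀ n D : ℕ, Adm n D →
  (2 : ℤ) ^ D.primeFactors.card ∣ ∑ a ∈ D.divisors, A1 n a ∧
  (2 : ℤ) ^ D.primeFactors.card ∣ ∑ a ∈ D.divisors, A2 n a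

end

end Pool.Agent.N844.P17G
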