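import Mathlib
import Pool.Agent.N844.P17G.Defs

/-!
# P17G: the relative sign of two isotropic vectors modulo `p` is a cocycle
-/

set_option autoImplicit false

namespace Pool.Agent.N844.P17G

open Finset
open Pool.Agent.N969.P15 (V3 ep2)
open Pool.Agent.N972.P17

/-- the determinant of three vectors -/
def det3 (u v w : V3) : ℤ :=
  u 0 * (v 1 * w 2 - v 2 * w 1) + u 1 * (v 2 * w 0 - v 0 * w 2) + u 2 * (v 0 * w 1 - v 1 * w 0)

/-- the properties of the two forms that are used -/
structure Frm (ip : V3 → V3 → ℤ) : Prop where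
  symm : ∀ v w, ip v w = ip w v
  lin : ∀ u v w (x y : ℤ), ip u (x • v + y • w) = x * ip u v + y * ip u w
  gram : ∀ u v w, ip u u * (ip v v * ip w w - ip v w ^ 2) -
    ip u v * (ip u v * ip w w - ip u w * ip v w) +
    ip u w * (ip u v * ip v w - ip u w * ip v v) = 1156 * det3 u v w ^ 2

theorem frm1 : Frm ip1 where
  symm := by intro v w; unfold ip1; ring
  lin := by
    intro u v w x y
    simp only [ip1, Pi.add_apply, Pi.smul_apply, smul_eq_mul]
    ring
  gram := by
    intro u v w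
    simp only [ip1, det3]
    ring

theorem frm2 : Frm ip2 where
  symm := by intro v w; unfold ip2; ring
  lin := by
    intro u v w x y
    simp only [ip2, Pi.add_apply, Pi.smul_apply, smul_eq_mul]
    ring
  gram := by
    intro u v w
    simp only [ip2, det3]
    ring

section field

variable {p : ℕ} [hp : Fact p.Prime]

theorem dvd_cast (x : ℤ) : (p : ℤ) ∣ x ↔ ((x : ℤ) : ZMod p) = 0 :=
  (ZMod.intCast_zmod_eq_zero_iff_dvd x p).symm

theorem jac_eq (x : ℤ) : jacobiSym x p = quadraticChar (ZMod p) x := by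
  rw [← jacobiSym.legendreSym.to_jacobiSym]
  rfl

theorem qc_mul {x y z s : ZMod p} (h : x * y * z = s ^ 2) (hx : x ≠ 0) (hy : y ≠ 0) (hz : z ≠ 0) :
    quadraticChar (ZMod p) x * quadraticChar (ZMod p) y = quadraticChar (ZMod p) z := by
  have hs : s ≠ 0 := by
    rintro rfl
    have h1 : x * y * z = 0 := by rw [h]; ring
    exact (mul_ne_zero (mul_ne_zero hx hy) hz) h1
  have h1 : quadraticChar (ZMod p) (x * y * z) = 1 := by
    rw [h]
    exact quadraticChar_sq_one' hs
  rw [map_mul, map_mul] at h1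
  have h2 : quadraticChar (ZMod p) z * quadraticChar (ZMod p) z = 1 := by
    rw [← map_mul, ← pow_two]
    exact quadraticChar_sq_one' hz
  calc _ = quadraticChar (ZMod p) x * quadraticChar (ZMod p) y *
        (quadraticChar (ZMod p) z * quadraticChar (ZMod p) z) := by rw [h2, mul_one]
    _ = (quadraticChar (ZMod p) x * quadraticChar (ZMod p) y * quadraticChar (ZMod p) z) *
        quadraticChar (ZMod p) z := by ring
    _ = _ := by rw [h1, one_mul]

theorem qc_eq {x y s : ZMod p} (h : x * y = s ^ 2) (hx : x ≠ 0) (hy : y ≠ 0) :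
    quadraticChar (ZMod p) x = quadraticChar (ZMod p) y := by
  have h1 := qc_mul (x := x) (y := 1) (z := y) (s := s) (by rw [mul_one, h]) hx one_ne_zero hy
  rwa [map_one, mul_one] at h1

theorem qc_mul_self {x : ZMod p} (hx : x ≠ 0) :
    quadraticChar (ZMod p) x * quadraticChar (ZMod p) x = 1 := by
  rw [← map_mul, ← pow_two]
  exact quadraticChar_sq_one' hx

theorem c1156 (h2 : p ≠ 2) (h17 : p ≠ 17) : ((1156 : ℤ) : ZMod p) ≠ 0 := by
  rw [Ne, ← dvd_cast]
  intro h
  have h3 : p ∣ 1156 := by exact_mod_cast h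
  have h4 : (1156 : ℕ) = (2 * 17) ^ 2 := by norm_num
  rw [h4] at h3
  rcases (Nat.Prime.dvd_mul hp.out).1 (hp.out.dvd_of_dvd_pow h3) with h5 | h5
  · exact h2 ((Nat.prime_dvd_prime_iff_eq hp.out Nat.prime_two).1 h5)
  · exact h17 ((Nat.prime_dvd_prime_iff_eq hp.out (by norm_num)).1 h5)

theorem c2 (h2 : p ≠ 2) : (2 : ZMod p) ≠ 0 := by
  have h : ((2 : ℤ) : ZMod p) ≠ 0 := by
    rw [Ne, ← dvd_cast]
    intro h
    have h3 : p ∣ 2 := by exact_mod_cast h
    exact h2 ((Nat.prime_dvd_prime_iff_eq hp.out Nat.prime_two).1 h3)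
  simpa using h

end field

section gen

variable {ip : V3 → V3 → ℤ} (F : Frm ip) {p : ℕ} [hp : Fact p.Prime] (h2 : p ≠ 2) (h17 : p ≠ 17)
include F

include h2 h17 in
/-- two orthogonal isotropic vectors are proportional -/
theorem par {v w : V3} (hv : (p : ℤ) ∣ ip v v) (hw : (p : ℤ) ∣ ip w w) (hb : (p : ℤ) ∣ ip v w)
    (i j : Fin 3) : (v i : ZMod p) * (w j : ZMod p) = v j * w i := by
  have key : ∀ u : V3, ((det3 u v w : ℤ) : ZMod p) = 0 := by
    intro u
    have h := congrArg (Int.cast : ℤ → ZMod p) (F.gram u v w)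
    push_cast at h
    rw [dvd_cast] at hv hw hb
    rw [hv, hw, hb] at h
    have h1 : ((1156 : ℤ) : ZMod p) * ((det3 u v w : ℤ) : ZMod p) ^ 2 = 0 := by
      push_cast
      rw [← h]
      ring
    rcases mul_eq_zero.1 h1 with h3 | h3
    · exact absurd h3 (c1156 h2 h17)
    · exact pow_eq_zero_iff (two_ne_zero) |>.1 h3
  have k0 := key ![1, 0, 0]
  have k1 := key ![0, 1, 0]
  have k2 := key ![0, 0, 1]
  simp only [det3, Matrix.cons_val_zero, Matrix.cons_val_one, Matrix.cons_val] at k0 k1 k2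
  push_cast at k0 k1 k2
  fin_cases i <;> fin_cases j <;> simp <;>
    first
    | ring1
    | linear_combination k0
    | linear_combination k1
    | linear_combination k2
    | linear_combination -k0
    | linear_combination -k1
    | linear_combination -k2

/-- the form vanishes on the multiples of `p` -/
theorem ip_zero {x : V3} (hx : ∀ j, (x j : ZMod p) = 0) (u : V3) :
    ((ip u x : ℤ) : ZMod p) = 0 := by
  have h : ∀ j, ∃ z : ℤ, x j = p * z := fun j => (dvd_cast (x j)).2 (hx j)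
  choose z hz using h
  have h1 : x = (p : ℤ) • z + (0 : ℤ) • z := by
    funext j
    simp only [Pi.add_apply, Pi.smul_apply, smul_eq_mul, zero_mul, add_zero]
    exact hz j
  rw [h1, F.lin]
  push_cast
  simp

/-- proportional vectors have proportional inner products -/
theorem par_ip {v w : V3} (h : ∀ i j : Fin 3, (v i : ZMod p) * (w j : ZMod p) = v j * w i)
    (i : Fin 3) (u : V3) :
    (v i : ZMod p) * ((ip u w : ℤ) : ZMod p) = w i * ((ip u v : ℤ) : ZMod p) := by
  have h1 := ip_zero F (p := p) (x := v i • w + (-w i) • v) (by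
    intro j
    simp only [Pi.add_apply, Pi.smul_apply, smul_eq_mul]
    push_cast
    linear_combination h i j) u
  rw [F.lin] at h1
  push_cast at h1
  linear_combination h1

/-- the form is nondegenerate modulo `p` -/
theorem nondeg (h2 : p ≠ 2) (h17 : p ≠ 17) {v : V3} (hv : ∃ i, ¬ (p : ℤ) ∣ v i) :
    ∃ i : Fin 3, ((ip v (Pi.single i 1) : ℤ) : ZMod p) ≠ 0 := by
  by_contra hc
  push Not at hc
  obtain ⟨i, hi⟩ := hv
  apply hi
  rw [dvd_cast]
  -- the determinant of `v` and two basis vectors is a coordinate of `v`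
  have key : ∀ j k : Fin 3, ((det3 v (Pi.single j 1) (Pi.single k 1) : ℤ) : ZMod p) = 0 := by
    intro j k
    have hb : ∀ x : V3, ((ip v x : ℤ) : ZMod p) = 0 := by
      intro x
      have e : x = (1 : ℤ) • ((x 0) • (Pi.single 0 1 : V3) + (x 1) • (Pi.single 1 1 : V3)) +
          (x 2) • (Pi.single 2 1 : V3) := by
        funext l
        fin_cases l <;> simp
      rw [e, F.lin, F.lin]
      push_cast
      rw [hc 0, hc 1, hc 2]
      ring
    have h := congrArg (Int.cast : ℤ → ZMod p) (F.gram v (Pi.single j 1) (Pi.single k 1))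
    push_cast at h
    rw [hb v, hb (Pi.single j 1), hb (Pi.single k 1)] at h
    have h1 : ((1156 : ℤ) : ZMod p) *
        ((det3 v (Pi.single j 1) (Pi.single k 1) : ℤ) : ZMod p) ^ 2 = 0 := by
      push_cast
      rw [← h]
      ring
    rcases mul_eq_zero.1 h1 with h3 | h3
    · exact absurd h3 (c1156 h2 h17)
    · exact pow_eq_zero_iff (two_ne_zero) |>.1 h3
  have k0 := key 1 2
  have k1 := key 2 0
  have k2 := key 0 1
  simp [det3] at k0 k1 k2
  fin_cases i
  · exact k0
  · exact k1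
  · exact k2

/-! ### the relative sign -/

omit F in
theorem sig_ne {v w : V3} (h : ((ip v w : ℤ) : ZMod p) ≠ 0) :
    sig ip p v w = quadraticChar (ZMod p) (2 * ((ip v w : ℤ) : ZMod p)) := by
  unfold sig
  rw [if_pos (by rw [dvd_cast]; exact h), jac_eq]
  push_cast
  rfl

include h2 h17 in
/-- proportional vectors: all coordinates give the same sign -/
theorem sig_par {v w : V3} (hv : Iso ip p v) (hw : Iso ip p w)
    (h : ((ip v w : ℤ) : ZMod p) = 0) {i : Fin 3} (hi : (v i : ZMod p) ≠ 0) :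
    (w i : ZMod p) ≠ 0 ∧
      sig ip p v w = quadraticChar (ZMod p) ((v i : ZMod p) * (w i : ZMod p)) := by
  have hp := par F h2 h17 hv.1 hw.1 ((dvd_cast _).2 h)
  have key : ∀ i, (v i : ZMod p) ≠ 0 → (w i : ZMod p) ≠ 0 := by
    intro i hi hw0
    obtain ⟨j, hj⟩ := hw.2
    apply hj
    rw [dvd_cast]
    have h1 := hp i j
    rw [hw0, mul_zero] at h1
    exact (mul_eq_zero.1 h1).resolve_left hi
  refine ⟨key i hi, ?_⟩
  have main : ∀ j, (v j : ZMod p) ≠ 0 → quadraticChar (ZMod p) ((v j : ZMod p) * (w j : ZMod p)) =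
      quadraticChar (ZMod p) ((v i : ZMod p) * (w i : ZMod p)) := by
    intro j hj
    refine qc_eq (s := (v i : ZMod p) * w j) ?_ (mul_ne_zero hj (key j hj))
      (mul_ne_zero hi (key i hi))
    linear_combination (-(v i : ZMod p) * w j) * hp i j
  unfold sig
  rw [if_neg (by rw [dvd_cast, h]; simp)]
  by_cases h0 : (p : ℤ) ∣ v 0
  · rw [if_neg (by simpa using h0)]
    by_cases h1 : (p : ℤ) ∣ v 1
    · rw [if_neg (by simpa using h1), jac_eq]
      push_cast
      refine main 2 ?_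
      intro h3
      obtain ⟨j, hj⟩ := hv.2
      rw [← dvd_cast] at h3
      fin_cases j
      · exact hj h0
      · exact hj h1
      · exact hj h3
    · rw [if_pos h1, jac_eq]
      push_cast
      exact main 1 (by rw [Ne, ← dvd_cast]; exact h1)
  · rw [if_pos h0, jac_eq]
    push_cast
    exact main 0 (by rw [Ne, ← dvd_cast]; exact h0)

omit F in
theorem iso_ne {v : V3} (hv : Iso ip p v) : ∃ i, (v i : ZMod p) ≠ 0 := by
  obtain ⟨i, hi⟩ := hv.2
  exact ⟨i, by rw [Ne, ← dvd_cast]; exact hi⟩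

include h2 h17 in
/-- the relative sign is a sign -/
theorem sig_sq {v w : V3} (hv : Iso ip p v) (hw : Iso ip p w) :
    sig ip p v w * sig ip p v w = 1 := by
  by_cases h : ((ip v w : ℤ) : ZMod p) = 0
  · obtain ⟨i, hi⟩ := iso_ne hv
    obtain ⟨h1, h3⟩ := sig_par F h2 h17 hv hw h hi
    rw [h3]
    exact qc_mul_self (mul_ne_zero hi h1)
  · rw [sig_ne h]
    exact qc_mul_self (mul_ne_zero (c2 h2) h)

include h2 h17 in
theorem sig_comm {v w : V3} (hv : Iso ip p v) (hw : Iso ip p w) :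
    sig ip p v w = sig ip p w v := by
  by_cases h : ((ip v w : ℤ) : ZMod p) = 0
  · obtain ⟨i, hi⟩ := iso_ne hv
    obtain ⟨h1, h3⟩ := sig_par F h2 h17 hv hw h hi
    have h' : ((ip w v : ℤ) : ZMod p) = 0 := by rw [F.symm]; exact h
    obtain ⟨-, h4⟩ := sig_par F h2 h17 hw hv h' h1
    rw [h3, h4, mul_comm]
  · have h' : ((ip w v : ℤ) : ZMod p) ≠ 0 := by rw [F.symm]; exact h
    rw [sig_ne h, sig_ne h', F.symm]

include h2 h17 in
/-- the cocycle property -/
theorem sig_mul {u v w : V3} (hu : Iso ip p u) (hv : Iso ip p v) (hw : Iso ip p w) :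
    sig ip p u v * sig ip p v w = sig ip p u w := by
  by_cases ha : ((ip u v : ℤ) : ZMod p) = 0
  · obtain ⟨i, hi⟩ := iso_ne hu
    obtain ⟨vi, h3⟩ := sig_par F h2 h17 hu hv ha hi
    have pr := par F h2 h17 hu.1 hv.1 ((dvd_cast _).2 ha)
    have h4 := par_ip F pr i w
    rw [F.symm w v, F.symm w u] at h4
    by_cases hb : ((ip v w : ℤ) : ZMod p) = 0
    · have hc : ((ip u w : ℤ) : ZMod p) = 0 := by
        rw [hb, mul_zero] at h4
        exact (mul_eq_zero.1 h4.symm).resolve_left vi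
      obtain ⟨wi, h5⟩ := sig_par F h2 h17 hu hw hc hi
      obtain ⟨-, h6⟩ := sig_par F h2 h17 hv hw hb vi
      rw [h3, h5, h6]
      refine qc_mul (s := (u i : ZMod p) * v i * w i) (by ring) (mul_ne_zero hi vi)
        (mul_ne_zero vi wi) (mul_ne_zero hi wi)
    · have hc : ((ip u w : ℤ) : ZMod p) ≠ 0 := by
        intro hc
        rw [hc, mul_zero] at h4
        exact (mul_ne_zero hi hb) h4
      rw [h3, sig_ne hb, sig_ne hc]
      refine qc_mul (s := 2 * (u i : ZMod p) * ((ip v w : ℤ) : ZMod p)) ?_ (mul_ne_zero hi vi)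
        (mul_ne_zero (c2 h2) hb) (mul_ne_zero (c2 h2) hc)
      linear_combination (-4 * (u i : ZMod p) * ((ip v w : ℤ) : ZMod p)) * h4
  · by_cases hb : ((ip v w : ℤ) : ZMod p) = 0
    · obtain ⟨i, hi⟩ := iso_ne hv
      obtain ⟨wi, h3⟩ := sig_par F h2 h17 hv hw hb hi
      have pr := par F h2 h17 hv.1 hw.1 ((dvd_cast _).2 hb)
      have h4 := par_ip F pr i u
      have hc : ((ip u w : ℤ) : ZMod p) ≠ 0 := by
        intro hc
        rw [hc, mul_zero] at h4
        exact (mul_ne_zero wi ha) h4.symm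
      rw [h3, sig_ne ha, sig_ne hc]
      refine qc_mul (s := 2 * (w i : ZMod p) * ((ip u v : ℤ) : ZMod p)) ?_
        (mul_ne_zero (c2 h2) ha) (mul_ne_zero hi wi) (mul_ne_zero (c2 h2) hc)
      linear_combination (4 * (w i : ZMod p) * ((ip u v : ℤ) : ZMod p)) * h4
    · by_cases hc : ((ip u w : ℤ) : ZMod p) = 0
      · obtain ⟨i, hi⟩ := iso_ne hu
        obtain ⟨wi, h3⟩ := sig_par F h2 h17 hu hw hc hi
        have pr := par F h2 h17 hu.1 hw.1 ((dvd_cast _).2 hc)
        have h4 := par_ip F pr i v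
        rw [F.symm v u] at h4
        rw [h3, sig_ne ha, sig_ne hb]
        refine qc_mul (s := 2 * (w i : ZMod p) * ((ip u v : ℤ) : ZMod p)) ?_
          (mul_ne_zero (c2 h2) ha) (mul_ne_zero (c2 h2) hb) (mul_ne_zero hi wi)
        linear_combination (4 * (w i : ZMod p) * ((ip u v : ℤ) : ZMod p)) * h4
      · rw [sig_ne ha, sig_ne hb, sig_ne hc]
        have h := congrArg (Int.cast : ℤ → ZMod p) (F.gram u v w)
        push_cast at h
        rw [(dvd_cast _).1 hu.1, (dvd_cast _).1 hv.1, (dvd_cast _).1 hw.1] at h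
        refine qc_mul (s := 2 * 34 * ((det3 u v w : ℤ) : ZMod p)) ?_
          (mul_ne_zero (c2 h2) ha) (mul_ne_zero (c2 h2) hb) (mul_ne_zero (c2 h2) hc)
        linear_combination 4 * h

omit hp in
/-- a vector all of whose coordinates are divisible by `p` -/
theorem sq_dvd {x : V3} (hx : ∀ i, (p : ℤ) ∣ x i) : (p : ℤ) ^ 2 ∣ ip x x := by
  choose z hz using hx
  have h1 : x = (p : ℤ) • z + (0 : ℤ) • z := by
    funext j
    simp only [Pi.add_apply, Pi.smul_apply, smul_eq_mul, zero_mul, add_zero]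
    exact hz j
  refine ⟨ip z z, ?_⟩
  rw [h1, F.lin, F.symm, F.lin]
  ring

theorem iso_of {n : ℤ} {v : V3} (hv : ip v v = n) (h1 : (p : ℤ) ∣ n) (h3 : ¬ (p : ℤ) ^ 2 ∣ n) :
    Iso ip p v := by
  refine ⟨by rw [hv]; exact h1, ?_⟩
  by_contra hc
  push Not at hc
  have := sq_dvd F hc
  rw [hv] at this
  exact h3 this

include h2 h17 in
/-- the relative sign as a function of `S` and `T` -/
theorem sig_rel {n : ℕ} {c : ℤ} {v w : V3} {S T : ℤ} (hn : p ∣ n) (hn2 : ¬ p ^ 2 ∣ n)
    (hc : (c : ZMod p) ≠ 0) (hv : ip v v = n) (hw : ip w w = c ^ 2 * n) (hS : S + T = c * n)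
    (hb : ip v w = S - T) : sig ip p v w = rel p n S T := by
  obtain ⟨n', hn'⟩ := hn
  have hp0 : (p : ℤ) ≠ 0 := by exact_mod_cast hp.out.ne_zero
  have hn0 : ((n' : ℤ) : ZMod p) ≠ 0 := by
    rw [Ne, ← dvd_cast]
    intro h
    have h3 : p ∣ n' := by exact_mod_cast h
    obtain ⟨k, hk⟩ := h3
    exact hn2 ⟨k, by rw [hn', hk]; ring⟩
  have hnz : ((n : ℤ) : ZMod p) = 0 := by
    rw [← dvd_cast, hn']
    push_cast
    exact dvd_mul_right _ _
  have hnp : n / p = n' := by rw [hn']; exact Nat.mul_div_cancel_left _ hp.out.pos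
  have hpn : (p : ℤ) ∣ n := by rw [hn']; push_cast; exact dvd_mul_right _ _
  have hpn2 : ¬ (p : ℤ) ^ 2 ∣ n := by
    intro h
    exact hn2 (by exact_mod_cast h)
  have iv : Iso ip p v := iso_of F hv hpn hpn2
  have iw : Iso ip p w := by
    refine iso_of F hw (dvd_mul_of_dvd_right hpn _) ?_
    intro h
    apply hpn2
    refine (IsCoprime.dvd_of_dvd_mul_left ?_ h)
    have h3 : IsCoprime (p : ℤ) c := by
      rw [Prime.coprime_iff_not_dvd (Nat.prime_iff_prime_int.1 hp.out), dvd_cast]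
      exact hc
    exact (h3.pow_left).pow_right
  unfold rel
  by_cases hT : (p : ℤ) ∣ T
  · rw [if_neg (by simpa using hT)]
    have hSd : (p : ℤ) ∣ S := by
      have h3 : S = c * n - T := by linarith
      rw [h3]
      exact dvd_sub (dvd_mul_of_dvd_right hpn _) hT
    obtain ⟨T', hT'⟩ := hT
    obtain ⟨S', hS'⟩ := hSd
    have hTd : T / p = T' := by rw [hT']; exact Int.mul_ediv_cancel_left _ hp0
    have hSd : S / p = S' := by rw [hS']; exact Int.mul_ediv_cancel_left _ hp0
    rw [hTd, hSd, hnp]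
    have hb0 : ((ip v w : ℤ) : ZMod p) = 0 := by
      rw [← dvd_cast, hb, hT', hS', ← mul_sub]
      exact dvd_mul_right _ _
    have e1 : S' + T' = c * n' := by
      have h3 : (p : ℤ) * (S' + T') = p * (c * n') := by
        rw [mul_add, ← hS', ← hT', hS, hn']
        push_cast
        ring
      exact mul_left_cancel₀ hp0 h3
    obtain ⟨i, hi⟩ := iso_ne iv
    obtain ⟨wi, hsig⟩ := sig_par F h2 h17 iv iw hb0 hi
    rw [hsig]
    have pr := par F h2 h17 iv.1 iw.1 ((dvd_cast _).2 hb0)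
    have e2 : ((v i : ZMod p) ^ 2 * c ^ 2 + (w i : ZMod p) ^ 2) * ((n' : ℤ) : ZMod p) =
        2 * (v i * w i) * (((S' : ℤ) : ZMod p) - ((T' : ℤ) : ZMod p)) := by
      have h4 : (p : ℤ) ^ 2 ∣ ip (v i • w + (-w i) • v) (v i • w + (-w i) • v) := by
        refine sq_dvd F ?_
        intro j
        rw [dvd_cast]
        simp only [Pi.add_apply, Pi.smul_apply, smul_eq_mul]
        push_cast
        linear_combination pr i j
      obtain ⟨Z, hZ⟩ := h4
      have h5 : ip (v i • w + (-w i) • v) (v i • w + (-w i) • v) =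
          v i ^ 2 * ip w w - 2 * (v i * w i) * ip v w + w i ^ 2 * ip v v := by
        rw [F.lin, F.symm (v i • w + (-w i) • v) w, F.symm (v i • w + (-w i) • v) v, F.lin, F.lin,
          F.symm w v]
        ring
      have h6 : (p : ℤ) * ((v i ^ 2 * c ^ 2 + w i ^ 2) * n' - 2 * (v i * w i) * (S' - T')) =
          p * (p * Z) := by
        have h7 : (n : ℤ) = p * n' := by rw [hn']; push_cast; rfl
        rw [h5, hw, hb, hv, hS', hT', h7] at hZ
        linear_combination hZ
      have h8 := mul_left_cancel₀ hp0 h6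
      have h9 := congrArg (Int.cast : ℤ → ZMod p) h8
      push_cast at h9
      rw [ZMod.natCast_self, zero_mul] at h9
      push_cast
      linear_combination h9
    have e3 : (S' : ZMod p) + (T' : ZMod p) = c * (n' : ZMod p) := by
      have := congrArg (Int.cast : ℤ → ZMod p) e1
      push_cast at this
      exact this
    push_cast at e2 hn0
    have e4 : ((w i : ZMod p) - c * v i) ^ 2 * (n' : ZMod p) = -4 * (v i * w i) * T' := by
      linear_combination e2 + 2 * (v i * w i : ZMod p) * e3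
    by_cases hTu : (p : ℤ) ∣ T'
    · rw [if_neg (by simpa using hTu), jac_eq]
      rw [dvd_cast] at hTu
      rw [hTu, mul_zero] at e4
      rw [hTu, add_zero] at e3
      have e5 : (w i : ZMod p) - c * v i = 0 := by
        have := (mul_eq_zero.1 e4).resolve_right hn0
        exact pow_eq_zero_iff (two_ne_zero) |>.1 this
      push_cast
      rw [e3]
      refine qc_eq (s := (c : ZMod p) * v i * n') ?_ (mul_ne_zero hi wi)
        (mul_ne_zero hn0 (mul_ne_zero hc hn0))
      linear_combination ((v i : ZMod p) * c * (n' : ZMod p) ^ 2) * e5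
    · rw [if_pos hTu, jac_eq]
      rw [dvd_cast] at hTu
      push_cast
      have h20 := c2 (p := p) h2
      refine qc_eq (s := ((w i : ZMod p) - c * v i) * n' / 2) ?_ (mul_ne_zero hi wi)
        (neg_ne_zero.2 (mul_ne_zero hn0 hTu))
      field_simp
      linear_combination -e4
  · rw [if_pos hT, jac_eq]
    have hT0 : ((T : ℤ) : ZMod p) ≠ 0 := by rw [Ne, ← dvd_cast]; exact hT
    have e1 : ((ip v w : ℤ) : ZMod p) = -2 * T := by
      have h3 : ip v w = c * n - 2 * T := by rw [hb]; linarith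
      rw [h3]
      push_cast at hnz ⊢
      rw [hnz]
      ring
    have h20 := c2 (p := p) h2
    have hb0 : ((ip v w : ℤ) : ZMod p) ≠ 0 := by
      rw [e1]
      exact mul_ne_zero (neg_ne_zero.2 h20) hT0
    rw [sig_ne hb0, e1]
    push_cast
    refine qc_eq (s := 2 * (T : ZMod p)) (by ring)
      (mul_ne_zero h20 (mul_ne_zero (neg_ne_zero.2 h20) hT0)) (neg_ne_zero.2 hT0)

end gen

/-! ### similitudes -/

/-- a similitude of factor `f ^ 2` -/
structure Sim (ip ip' : V3 → V3 → ℤ) (f : ℤ) (M : V3 → V3) : Prop where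
  iso : ∀ v w, ip' (M v) (M w) = f ^ 2 * ip v w
  lin : ∀ (x y : ℤ) (v w : V3), M (x • v + y • w) = x • M v + y • M w

section sim

variable {ip ip' : V3 → V3 → ℤ} (F : Frm ip) (F' : Frm ip') {f : ℤ} {M : V3 → V3}
  (hM : Sim ip ip' f M) {p : ℕ} [hp : Fact p.Prime] (h2 : p ≠ 2) (h17 : p ≠ 17)
  (hf : (f : ZMod p) ≠ 0)

include F F' hM h2 h17 hf in
theorem sim_iso {v : V3} (hv : Iso ip p v) : Iso ip' p (M v) := by
  refine ⟨by rw [hM.iso]; exact dvd_mul_of_dvd_right hv.1 _, ?_⟩
  by_contra hc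
  push Not at hc
  obtain ⟨i, hi⟩ := nondeg F h2 h17 hv.2
  have h1 := ip_zero F' (p := p) (x := M v) (fun j => (dvd_cast _).1 (hc j)) (M (Pi.single i 1))
  rw [hM.iso, F.symm] at h1
  push_cast at h1
  exact mul_ne_zero (pow_ne_zero 2 hf) hi h1

include F F' hM h2 h17 hf in
theorem sim_sig {v w : V3} (hv : Iso ip p v) (hw : Iso ip p w) :
    sig ip' p (M v) (M w) = sig ip p v w := by
  have hv' := sim_iso F F' hM h2 h17 hf hv
  have hw' := sim_iso F F' hM h2 h17 hf hw
  have e : ((ip' (M v) (M w) : ℤ) : ZMod p) = (f : ZMod p) ^ 2 * ((ip v w : ℤ) : ZMod p) := by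
    rw [hM.iso]
    push_cast
    rfl
  by_cases hb : ((ip v w : ℤ) : ZMod p) = 0
  · obtain ⟨i, hi⟩ := iso_ne hv
    obtain ⟨wi, h3⟩ := sig_par F h2 h17 hv hw hb hi
    obtain ⟨k, hk⟩ := iso_ne hv'
    obtain ⟨wk, h4⟩ := sig_par F' h2 h17 hv' hw' (by rw [e, hb, mul_zero]) hk
    rw [h3, h4]
    have pr := par F h2 h17 hv.1 hw.1 ((dvd_cast _).2 hb)
    -- `v i * M w = w i * M v`
    have h5 : (v i : ZMod p) * (M w k : ℤ) = w i * (M v k : ℤ) := by
      have h6 : ∀ j, ∃ z : ℤ, (v i • w + (-w i) • v) j = p * z := by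
        intro j
        refine (dvd_cast _).2 ?_
        simp only [Pi.add_apply, Pi.smul_apply, smul_eq_mul]
        push_cast
        linear_combination pr i j
      choose z hz using h6
      have h7 : v i • w + (-w i) • v = (p : ℤ) • z + (0 : ℤ) • z := by
        funext j
        rw [hz j]
        simp
      have h8 := congrArg M h7
      rw [hM.lin, hM.lin] at h8
      have h9 := congrFun h8 k
      simp only [Pi.add_apply, Pi.smul_apply, smul_eq_mul, zero_mul, add_zero] at h9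
      have h10 := congrArg (Int.cast : ℤ → ZMod p) h9
      push_cast at h10
      rw [ZMod.natCast_self, zero_mul] at h10
      linear_combination h10
    refine qc_eq (s := (w i : ZMod p) * (M v k : ℤ)) ?_ (mul_ne_zero hk wk) (mul_ne_zero hi wi)
    linear_combination ((w i : ZMod p) * (M v k : ℤ)) * h5
  · have hb' : ((ip' (M v) (M w) : ℤ) : ZMod p) ≠ 0 := by
      rw [e]
      exact mul_ne_zero (pow_ne_zero 2 hf) hb
    rw [sig_ne hb, sig_ne hb', e]
    have h20 := c2 (p := p) h2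
    refine qc_eq (s := 2 * (f : ZMod p) * ((ip v w : ℤ) : ZMod p)) (by ring)
      (mul_ne_zero h20 (mul_ne_zero (pow_ne_zero 2 hf) hb)) (mul_ne_zero h20 hb)

end sim

section self

variable {ip : V3 → V3 → ℤ} (F : Frm ip) {f : ℤ} {M : V3 → V3}
  (hM : Sim ip ip f M) {p : ℕ} [hp : Fact p.Prime] (h2 : p ≠ 2) (h17 : p ≠ 17)
  (hf : (f : ZMod p) ≠ 0)

include F hM h2 h17 hf in
/-- the sign of a similitude does not depend on the vector -/
theorem sim_const {u v : V3} (hu : Iso ip p u) (hv : Iso ip p v) :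
    sig ip p u (M u) = sig ip p v (M v) := by
  have hu' := sim_iso F F hM h2 h17 hf hu
  have hv' := sim_iso F F hM h2 h17 hf hv
  have e1 := sig_mul F h2 h17 hu hu' hv'
  have e2 := sig_mul F h2 h17 hu hv hv'
  rw [sim_sig F F hM h2 h17 hf hu hv] at e1
  have e3 := sig_sq F h2 h17 hu hv
  calc sig ip p u (M u) = sig ip p u (M u) * (sig ip p u v * sig ip p u v) := by rw [e3, mul_one]
    _ = (sig ip p u (M u) * sig ip p u v) * sig ip p u v := by ring
    _ = (sig ip p u v * sig ip p v (M v)) * sig ip p u v := by rw [e1, e2]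
    _ = sig ip p v (M v) * (sig ip p u v * sig ip p u v) := by ring
    _ = _ := by rw [e3, mul_one]

include F hM h2 h17 hf in
/-- the sign of a similitude -/
theorem sim_sign {l : V3} {k m : ℤ} (hl : ∃ i, (l i : ZMod p) ≠ 0) (hk : (k : ZMod p) ≠ 0)
    (hq : ∀ v : V3, ip v (M v) = k * (l 0 * v 0 + l 1 * v 1 + l 2 * v 2) ^ 2 + m * ip v v)
    {v : V3} (hv : Iso ip p v) : sig ip p v (M v) = quadraticChar (ZMod p) (2 * k) := by
  have h20 := c2 (p := p) h2
  -- the case that the linear form does not vanish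
  have main : ∀ v : V3, Iso ip p v →
      ((l 0 * v 0 + l 1 * v 1 + l 2 * v 2 : ℤ) : ZMod p) ≠ 0 →
      sig ip p v (M v) = quadraticChar (ZMod p) (2 * k) := by
    intro v hv h
    have e : ((ip v (M v) : ℤ) : ZMod p) =
        k * ((l 0 * v 0 + l 1 * v 1 + l 2 * v 2 : ℤ) : ZMod p) ^ 2 := by
      rw [hq]
      have h1 := (dvd_cast _).1 hv.1
      push_cast at h1 ⊢
      rw [h1]
      ring
    have hb : ((ip v (M v) : ℤ) : ZMod p) ≠ 0 := by
      rw [e]
      exact mul_ne_zero hk (pow_ne_zero 2 h)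
    rw [sig_ne hb, e]
    refine qc_eq (s := 2 * (k : ZMod p) * ((l 0 * v 0 + l 1 * v 1 + l 2 * v 2 : ℤ) : ZMod p))
      (by ring) (mul_ne_zero h20 (mul_ne_zero hk (pow_ne_zero 2 h))) (mul_ne_zero h20 hk)
  by_cases h : ((l 0 * v 0 + l 1 * v 1 + l 2 * v 2 : ℤ) : ZMod p) = 0
  swap
  · exact main v hv h
  -- a vector `z` with both linear forms nonzero
  obtain ⟨i, hi⟩ := nondeg F h2 h17 hv.2
  obtain ⟨j, hj⟩ := hl
  have hs : ∀ i : Fin 3, l 0 * (Pi.single i 1 : V3) 0 + l 1 * (Pi.single i 1 : V3) 1 +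
      l 2 * (Pi.single i 1 : V3) 2 = l i := by
    intro i
    fin_cases i <;> simp
  obtain ⟨z, hz1, hz2⟩ : ∃ z : V3, ((ip v z : ℤ) : ZMod p) ≠ 0 ∧
      ((l 0 * z 0 + l 1 * z 1 + l 2 * z 2 : ℤ) : ZMod p) ≠ 0 := by
    by_cases h3 : (l i : ZMod p) = 0
    · by_cases h4 : ((ip v (Pi.single j 1) : ℤ) : ZMod p) = 0
      · refine ⟨(1 : ℤ) • Pi.single i 1 + (1 : ℤ) • Pi.single j 1, ?_, ?_⟩
        · rw [F.lin]
          push_cast
          rw [h4]
          simpa using hi
        · have h5 : l 0 * ((1 : ℤ) • (Pi.single i 1 : V3) + (1 : ℤ) • (Pi.single j 1 : V3)) 0 +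
              l 1 * ((1 : ℤ) • (Pi.single i 1 : V3) + (1 : ℤ) • (Pi.single j 1 : V3)) 1 +
              l 2 * ((1 : ℤ) • (Pi.single i 1 : V3) + (1 : ℤ) • (Pi.single j 1 : V3)) 2 =
              l i + l j := by
            rw [← hs i, ← hs j]
            simp only [Pi.add_apply, Pi.smul_apply, smul_eq_mul]
            ring
          rw [h5]
          push_cast
          rw [h3, zero_add]
          exact hj
      · exact ⟨Pi.single j 1, h4, by rw [hs j]; exact hj⟩
    · exact ⟨Pi.single i 1, hi, by rw [hs i]; exact h3⟩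
  -- the reflected vector
  have e1 : ip (ip z z • v + (-2 * ip v z) • z) (ip z z • v + (-2 * ip v z) • z) =
      ip z z ^ 2 * ip v v := by
    rw [F.lin, F.symm (ip z z • v + (-2 * ip v z) • z) v,
      F.symm (ip z z • v + (-2 * ip v z) • z) z, F.lin, F.lin, F.symm z v]
    ring
  have e2 : l 0 * (ip z z • v + (-2 * ip v z) • z) 0 + l 1 * (ip z z • v + (-2 * ip v z) • z) 1 +
      l 2 * (ip z z • v + (-2 * ip v z) • z) 2 =
      ip z z * (l 0 * v 0 + l 1 * v 1 + l 2 * v 2) -
        2 * ip v z * (l 0 * z 0 + l 1 * z 1 + l 2 * z 2) := by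
    simp only [Pi.add_apply, Pi.smul_apply, smul_eq_mul]
    ring
  have e3 : ((l 0 * (ip z z • v + (-2 * ip v z) • z) 0 +
      l 1 * (ip z z • v + (-2 * ip v z) • z) 1 +
      l 2 * (ip z z • v + (-2 * ip v z) • z) 2 : ℤ) : ZMod p) ≠ 0 := by
    rw [e2]
    have : ((ip z z * (l 0 * v 0 + l 1 * v 1 + l 2 * v 2) -
        2 * ip v z * (l 0 * z 0 + l 1 * z 1 + l 2 * z 2) : ℤ) : ZMod p) =
        ((ip z z : ℤ) : ZMod p) * ((l 0 * v 0 + l 1 * v 1 + l 2 * v 2 : ℤ) : ZMod p) -
        2 * ((ip v z : ℤ) : ZMod p) * ((l 0 * z 0 + l 1 * z 1 + l 2 * z 2 : ℤ) : ZMod p) := by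
      push_cast
      ring
    rw [this, h, mul_zero, zero_sub]
    exact neg_ne_zero.2 (mul_ne_zero (mul_ne_zero h20 hz1) hz2)
  have hu : Iso ip p (ip z z • v + (-2 * ip v z) • z) := by
    refine ⟨by rw [e1]; exact dvd_mul_of_dvd_right hv.1 _, ?_⟩
    by_contra hc
    push Not at hc
    apply e3
    rw [← dvd_cast]
    exact dvd_add (dvd_add (dvd_mul_of_dvd_right (hc 0) _) (dvd_mul_of_dvd_right (hc 1) _))
      (dvd_mul_of_dvd_right (hc 2) _)
  rw [← sim_const F hM h2 h17 hf hu hv]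
  exact main _ hu e3

end self

end Pool.Agent.N844.P17G
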