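import Mathlib
import Pool.Agent.N844.P17G.Sig

/-!
# P17G: the genus characters on the two lattices
-/

set_option autoImplicit false

namespace Pool.Agent.N844.P17G

open Finset
open Pool.Agent.N969.P15 (V3 ep2)
open Pool.Agent.N972.P17

/-- the rotation of order two, on both lattices -/
def rot (v : V3) : V3 := ![-v 0 + v 2, -v 1 + v 2, v 2]

theorem lin_rot (x y : ℤ) (v w : V3) : rot (x • v + y • w) = x • rot v + y • rot w := by
  funext i
  fin_cases i <;> simp [rot] <;> ring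

theorem sim_rot1 : Sim ip1 ip1 1 rot where
  iso := by intro v w; simp [rot, ip1]; ring
  lin := lin_rot

theorem sim_rot2 : Sim ip2 ip2 1 rot where
  iso := by intro v w; simp [rot, ip2]; ring
  lin := lin_rot

theorem lin_m21 (x y : ℤ) (v w : V3) : m21 (x • v + y • w) = x • m21 v + y • m21 w := by
  funext i
  fin_cases i <;> simp [m21] <;> ring

theorem sim_m21 : Sim ip2 ip1 2 m21 where
  iso := by intro v w; simp [m21, ip1, ip2]; ring
  lin := lin_m21

theorem sim_comp {ip ip' ip'' : V3 → V3 → ℤ} {f g : ℤ} {M N : V3 → V3} (hM : Sim ip ip' f M)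
    (hN : Sim ip' ip'' g N) : Sim ip ip'' (g * f) (fun v => N (M v)) where
  iso := by
    intro v w
    rw [hN.iso, hM.iso]
    ring
  lin := by
    intro x y v w
    rw [hM.lin, hN.lin]

theorem sim_smul {ip : V3 → V3 → ℤ} (F : Frm ip) (k : ℤ) : Sim ip ip k (fun v => k • v) where
  iso := by
    intro v w
    have h1 : ∀ u x : V3, ip u (k • x) = k * ip u x := by
      intro u x
      have e : k • x = k • x + (0 : ℤ) • x := by rw [zero_smul, add_zero]
      rw [e, F.lin]
      ring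
    show ip (k • v) (k • w) = k ^ 2 * ip v w
    rw [h1, F.symm, h1, F.symm]
    ring
  lin := by
    intro x y v w
    show k • (x • v + y • w) = x • (k • v) + y • (k • w)
    rw [smul_add, smul_comm k x v, smul_comm k y w]

section psi

variable {p : ℕ} [hp : Fact p.Prime] (h2 : p ≠ 2) (h17 : p ≠ 17)

theorem iso_bas {v : V3} (hv : Iso ip1 p v) : Iso ip1 p (bas p) := by
  have h : ∃ e, Iso ip1 p e := ⟨v, hv⟩
  unfold bas
  rw [dif_pos h]
  exact h.choose_spec

include h2 in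
theorem f2 : ((2 : ℤ) : ZMod p) ≠ 0 := by simpa using c2 (p := p) h2

theorem f1 : ((1 : ℤ) : ZMod p) ≠ 0 := by simp

include h2 h17 in
theorem psi1_mul {v w : V3} (hv : Iso ip1 p v) (hw : Iso ip1 p w) :
    psi1 p v * psi1 p w = sig ip1 p v w := by
  have hb := iso_bas hv
  unfold psi1
  have h1 := sig_mul frm1 h2 h17 hb hv hw
  rw [← h1]
  calc _ = (sig ip1 p (bas p) v * sig ip1 p (bas p) v) * sig ip1 p v w := by ring
    _ = _ := by rw [sig_sq frm1 h2 h17 hb hv, one_mul]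

include h2 h17 in
theorem psi2_mul {v w : V3} (hv : Iso ip2 p v) (hw : Iso ip2 p w) :
    psi2 p v * psi2 p w = sig ip2 p v w := by
  unfold psi2
  rw [psi1_mul h2 h17 (sim_iso frm2 frm1 sim_m21 h2 h17 (f2 h2) hv)
    (sim_iso frm2 frm1 sim_m21 h2 h17 (f2 h2) hw), sim_sig frm2 frm1 sim_m21 h2 h17 (f2 h2) hv hw]

include h2 h17 in
theorem psi1_sq {v : V3} (hv : Iso ip1 p v) : psi1 p v * psi1 p v = 1 :=
  sig_sq frm1 h2 h17 (iso_bas hv) hv

include h2 h17 in
theorem psi2_sq {v : V3} (hv : Iso ip2 p v) : psi2 p v * psi2 p v = 1 :=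
  psi1_sq h2 h17 (sim_iso frm2 frm1 sim_m21 h2 h17 (f2 h2) hv)

include h2 h17 in
/-- the sign of a similitude of the first lattice with trivial linear form -/
theorem sig_smul {ip : V3 → V3 → ℤ} (F : Frm ip) {k : ℤ} (hk : (k : ZMod p) ≠ 0) {v : V3}
    (hv : Iso ip p v) : sig ip p v (k • v) = quadraticChar (ZMod p) k := by
  have hw : Iso ip p (k • v) := sim_iso F F (sim_smul F k) h2 h17 hk hv
  have h1 : ip v (k • v) = k * ip v v := by
    have e : k • v = k • v + (0 : ℤ) • v := by rw [zero_smul, add_zero]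
    rw [e, F.lin]
    ring
  have h0 : ((ip v (k • v) : ℤ) : ZMod p) = 0 := by
    rw [← dvd_cast, h1]
    exact dvd_mul_of_dvd_right hv.1 _
  obtain ⟨i, hi⟩ := iso_ne hv
  obtain ⟨h3, h4⟩ := sig_par F h2 h17 hv hw h0 hi
  rw [h4]
  refine qc_eq (s := (k : ZMod p) * v i) ?_ (mul_ne_zero hi h3) hk
  simp only [Pi.smul_apply, smul_eq_mul]
  push_cast
  ring

include h2 h17 in
/-- the action of a similitude of the first lattice -/
theorem psi1_sim {f : ℤ} {M : V3 → V3} (hM : Sim ip1 ip1 f M) (hf : (f : ZMod p) ≠ 0) {v : V3}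
    (hv : Iso ip1 p v) : psi1 p (M v) = sig ip1 p v (M v) * psi1 p v := by
  have h1 := psi1_mul h2 h17 hv (sim_iso frm1 frm1 hM h2 h17 hf hv)
  rw [← h1]
  calc psi1 p (M v) = (psi1 p v * psi1 p v) * psi1 p (M v) := by
        rw [psi1_sq h2 h17 hv, one_mul]
    _ = _ := by ring

include h2 h17 in
/-- the action of a similitude of the second lattice -/
theorem psi2_sim {f : ℤ} {M : V3 → V3} (hM : Sim ip2 ip2 f M) (hf : (f : ZMod p) ≠ 0) {v : V3}
    (hv : Iso ip2 p v) : psi2 p (M v) = sig ip2 p v (M v) * psi2 p v := by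
  have h1 := psi2_mul h2 h17 hv (sim_iso frm2 frm2 hM h2 h17 hf hv)
  rw [← h1]
  calc psi2 p (M v) = (psi2 p v * psi2 p v) * psi2 p (M v) := by
        rw [psi2_sq h2 h17 hv, one_mul]
    _ = _ := by ring

include h2 h17 in
theorem psi1_smul {k : ℤ} (hk : (k : ZMod p) ≠ 0) {v : V3} (hv : Iso ip1 p v) :
    psi1 p (k • v) = jacobiSym k p * psi1 p v := by
  rw [psi1_sim h2 h17 (sim_smul frm1 k) hk hv, sig_smul h2 h17 frm1 hk hv, jac_eq]

include h2 h17 in
theorem psi2_smul {k : ℤ} (hk : (k : ZMod p) ≠ 0) {v : V3} (hv : Iso ip2 p v) :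
    psi2 p (k • v) = jacobiSym k p * psi2 p v := by
  rw [psi2_sim h2 h17 (sim_smul frm2 k) hk hv, sig_smul h2 h17 frm2 hk hv, jac_eq]

include h2 h17 in
/-- `2 · 34` is a square times `17` -/
theorem qc34 : quadraticChar (ZMod p) (2 * ((34 : ℤ) : ZMod p)) = jacobiSym 17 p := by
  rw [jac_eq]
  have h := c1156 (p := p) h2 h17
  have h20 := c2 (p := p) h2
  have h17' : (17 : ZMod p) ≠ 0 := by
    intro h3
    apply h
    have : ((1156 : ℤ) : ZMod p) = 17 * 68 := by push_cast; norm_num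
    rw [this, h3, zero_mul]
  push_cast
  refine qc_eq (s := 2 * 17) (by ring) ?_ h17'
  have : (2 : ZMod p) * 34 = 2 * 2 * 17 := by ring
  rw [this]
  exact mul_ne_zero (mul_ne_zero h20 h20) h17'

include h2 h17 in
theorem f34 : ((34 : ℤ) : ZMod p) ≠ 0 := by
  intro h
  apply c1156 (p := p) h2 h17
  have : ((1156 : ℤ) : ZMod p) = ((34 : ℤ) : ZMod p) * 34 := by push_cast; norm_num
  rw [this, h, zero_mul]

include h2 h17 in
theorem psi1_rot {v : V3} (hv : Iso ip1 p v) : psi1 p (rot v) = jacobiSym 17 p * psi1 p v := by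
  rw [psi1_sim h2 h17 sim_rot1 f1 hv, ← qc34 h2 h17]
  congr 1
  refine sim_sign frm1 sim_rot1 h2 h17 f1 (l := ![0, 0, 1]) (m := -1) ⟨2, by simp⟩ (f34 h2 h17)
    ?_ hv
  intro v
  simp [rot, ip1]
  ring

include h2 h17 in
theorem psi2_rot {v : V3} (hv : Iso ip2 p v) : psi2 p (rot v) = jacobiSym 17 p * psi2 p v := by
  rw [psi2_sim h2 h17 sim_rot2 f1 hv, ← qc34 h2 h17]
  congr 1
  refine sim_sign frm2 sim_rot2 h2 h17 f1 (l := ![0, 0, 1]) (m := -1) ⟨2, by simp⟩ (f34 h2 h17)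
    ?_ hv
  intro v
  simp [rot, ip2]
  ring

end psi

end Pool.Agent.N844.P17G
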