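import Mathlib
import Pool.Agent.N844.P17G.Psi
import Pool.Agent.N973.P17.BIL

/-!
# P17G: products of the character sums as sums over the inner products, the bilinear identities
-/

set_option autoImplicit false

namespace Pool.Agent.N844.P17G

open Finset
open Pool.Agent.N969.P15 (V3 ep2)
open Pool.Agent.N972.P17
open Pool.Agent.N973.P17 (mem_vec1 mem_vec2 cs1 cs2 IsF isF1 isF2 card_neg card_end sum_mid sum_ends)

theorem adm_p {n a : ℕ} (h : Adm n a) {p : ℕ} (hp : p ∈ a.primeFactors) :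
    p.Prime ∧ p ≠ 2 ∧ p ≠ 17 ∧ p ∣ n ∧ ¬ p ^ 2 ∣ n := by
  obtain ⟨-, h1, h3, h4⟩ := h
  have hp1 := Nat.prime_of_mem_primeFactors hp
  have hp2 := Nat.dvd_of_mem_primeFactors hp
  refine ⟨hp1, ?_, ?_, (h4 p hp).1, (h4 p hp).2⟩
  · rintro rfl
    exact (Nat.not_even_iff_odd.2 h1) (even_iff_two_dvd.2 hp2)
  · rintro rfl
    exact h3 hp2

theorem not_sq {n k p : ℕ} (hp : p.Prime) (hn2 : ¬ p ^ 2 ∣ n) (hk : ¬ p ∣ k) :
    ¬ (p : ℤ) ^ 2 ∣ (k : ℤ) ^ 2 * n := by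
  intro h
  apply hn2
  have h1 : p ^ 2 ∣ k ^ 2 * n := by exact_mod_cast h
  refine (Nat.Coprime.dvd_of_dvd_mul_left ?_ h1)
  exact ((Nat.Prime.coprime_iff_not_dvd hp).2 hk).pow 2 2

theorem iso1 {n k p : ℕ} (hp : p.Prime) (hn : p ∣ n) (hn2 : ¬ p ^ 2 ∣ n) (hk : ¬ p ∣ k) {v : V3}
    (hv : ip1 v v = (k : ℤ) ^ 2 * n) : Iso ip1 p v :=
  haveI : Fact p.Prime := ⟨hp⟩
  iso_of frm1 hv (dvd_mul_of_dvd_right (by exact_mod_cast hn) _) (not_sq hp hn2 hk)

theorem iso2 {n k p : ℕ} (hp : p.Prime) (hn : p ∣ n) (hn2 : ¬ p ^ 2 ∣ n) (hk : ¬ p ∣ k) {v : V3}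
    (hv : ip2 v v = (k : ℤ) ^ 2 * n) : Iso ip2 p v :=
  haveI : Fact p.Prime := ⟨hp⟩
  iso_of frm2 hv (dvd_mul_of_dvd_right (by exact_mod_cast hn) _) (not_sq hp hn2 hk)

theorem iso1' {n p : ℕ} (hp : p.Prime) (hn : p ∣ n) (hn2 : ¬ p ^ 2 ∣ n) {v : V3}
    (hv : ip1 v v = n) : Iso ip1 p v :=
  iso1 (k := 1) hp hn hn2 hp.not_dvd_one (by rw [hv]; push_cast; ring)

theorem iso2' {n p : ℕ} (hp : p.Prime) (hn : p ∣ n) (hn2 : ¬ p ^ 2 ∣ n) {v : V3}
    (hv : ip2 v v = n) : Iso ip2 p v :=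
  iso2 (k := 1) hp hn hn2 hp.not_dvd_one (by rw [hv]; push_cast; ring)

theorem jac_prod {a : ℕ} (ha : Squarefree a) (x : ℤ) :
    jacobiSym x a = ∏ p ∈ a.primeFactors, jacobiSym x p := by
  conv_lhs => rw [← Nat.prod_primeFactors_of_squarefree ha]
  have key : ∀ s : Finset ℕ, jacobiSym x (∏ p ∈ s, p) = ∏ p ∈ s, jacobiSym x p ∨
      ∃ p ∈ s, p = 0 := by
    intro s
    induction s using Finset.induction_on with
    | empty => left; simp
    | insert p s hp ih =>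
      rcases ih with ih | ⟨q, hq, h0⟩
      · by_cases h : (p = 0 ∨ ∏ q ∈ s, q = 0)
        · rcases h with h | h
          · exact Or.inr ⟨p, Finset.mem_insert_self _ _, h⟩
          · rw [Finset.prod_eq_zero_iff] at h
            obtain ⟨q, hq, h0⟩ := h
            exact Or.inr ⟨q, Finset.mem_insert_of_mem hq, h0⟩
        · left
          push Not at h
          rw [Finset.prod_insert hp, Finset.prod_insert hp, ← ih]
          have : NeZero p := ⟨h.1⟩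
          have : NeZero (∏ q ∈ s, q) := ⟨h.2⟩
          exact jacobiSym.mul_right x p _
      · exact Or.inr ⟨q, Finset.mem_insert_of_mem hq, h0⟩
  rcases key a.primeFactors with h | ⟨p, hp, h⟩
  · exact h
  · exact absurd h (Nat.prime_of_mem_primeFactors hp).ne_zero

theorem Psi1_mul {n k a : ℕ} (ha : Adm n a) (hk : ∀ p ∈ a.primeFactors, ¬ p ∣ k) {v w : V3}
    {S T : ℤ} (hv : ip1 v v = n) (hw : ip1 w w = (k : ℤ) ^ 2 * n) (hS : S + T = k * n)
    (hb : ip1 v w = S - T) : Psi1 a v * Psi1 a w = sgn a n S T := by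
  unfold Psi1 sgn
  rw [← Finset.prod_mul_distrib]
  refine Finset.prod_congr rfl fun p hp => ?_
  obtain ⟨p1, p2, p3, p4, p5⟩ := adm_p ha hp
  have : Fact p.Prime := ⟨p1⟩
  rw [psi1_mul p2 p3 (iso1' p1 p4 p5 hv) (iso1 p1 p4 p5 (hk p hp) hw)]
  refine sig_rel (c := k) frm1 p2 p3 p4 p5 ?_ hv hw hS hb
  rw [Ne, ← dvd_cast]
  intro h
  exact hk p hp (by exact_mod_cast h)

theorem Psi2_mul {n k a : ℕ} (ha : Adm n a) (hk : ∀ p ∈ a.primeFactors, ¬ p ∣ k) {v w : V3}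
    {S T : ℤ} (hv : ip2 v v = n) (hw : ip2 w w = (k : ℤ) ^ 2 * n) (hS : S + T = k * n)
    (hb : ip2 v w = S - T) : Psi2 a v * Psi2 a w = sgn a n S T := by
  unfold Psi2 sgn
  rw [← Finset.prod_mul_distrib]
  refine Finset.prod_congr rfl fun p hp => ?_
  obtain ⟨p1, p2, p3, p4, p5⟩ := adm_p ha hp
  have : Fact p.Prime := ⟨p1⟩
  rw [psi2_mul p2 p3 (iso2' p1 p4 p5 hv) (iso2 p1 p4 p5 (hk p hp) hw)]
  refine sig_rel (c := k) frm2 p2 p3 p4 p5 ?_ hv hw hS hb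
  rw [Ne, ← dvd_cast]
  intro h
  exact hk p hp (by exact_mod_cast h)

/-! ### parity of the inner product -/

theorem par1 {n k : ℕ} {v w : V3} (hv : ip1 v v = n) (hw : ip1 w w = (k : ℤ) ^ 2 * n) :
    (2 : ℤ) ∣ (k : ℤ) * n - ip1 v w := by
  have e1 : (2 : ℤ) ∣ n - (v 0 + v 1) := by
    rw [← hv]
    have h1 : (2 : ℤ) ∣ (v 0 + v 1) * (v 0 + v 1 - 1) := by
      have := Int.even_mul_pred_self (v 0 + v 1)
      exact even_iff_two_dvd.1 this
    obtain ⟨c, hc⟩ := h1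
    refine ⟨c + (3 * (v 0 * v 0) + 5 * (v 1 * v 1) + 10 * (v 2 * v 2) - 4 * (v 0 * v 1) -
      2 * (v 0 * v 2) - 4 * (v 1 * v 2)), ?_⟩
    unfold ip1
    linear_combination hc
  have e2 : (2 : ℤ) ∣ k * n - (w 0 + w 1) := by
    have h1 : (2 : ℤ) ∣ (w 0 + w 1) * (w 0 + w 1 - 1) := by
      have := Int.even_mul_pred_self (w 0 + w 1)
      exact even_iff_two_dvd.1 this
    have h3 : (2 : ℤ) ∣ (n : ℤ) * (k * (k - 1)) := by
      have := Int.even_mul_pred_self (k : ℤ)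
      exact dvd_mul_of_dvd_right (even_iff_two_dvd.1 this) _
    obtain ⟨c, hc⟩ := h1
    obtain ⟨d, hd⟩ := h3
    refine ⟨c - d + (3 * (w 0 * w 0) + 5 * (w 1 * w 1) + 10 * (w 2 * w 2) - 4 * (w 0 * w 1) -
      2 * (w 0 * w 2) - 4 * (w 1 * w 2)), ?_⟩
    unfold ip1 at hw
    linear_combination hc - hd - hw
  obtain ⟨c, hc⟩ := e1
  obtain ⟨d, hd⟩ := e2
  have h3 : (2 : ℤ) ∣ (k : ℤ) * (n * (n - 1)) := by
    have := Int.even_mul_pred_self (n : ℤ)
    exact dvd_mul_of_dvd_right (even_iff_two_dvd.1 this) _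
  obtain ⟨e, he⟩ := h3
  refine ⟨-e + n * d + k * n * c - 2 * c * d - (3 * (v 0 * w 0) + 5 * (v 1 * w 1) +
    10 * (v 2 * w 2) - 2 * (v 0 * w 1 + v 1 * w 0) - (v 0 * w 2 + v 2 * w 0) -
    2 * (v 1 * w 2 + v 2 * w 1)), ?_⟩
  unfold ip1
  linear_combination (-1 : ℤ) * he + (n : ℤ) * hd + (k : ℤ) * n * hc - (n - (v 0 + v 1)) * hd -
    2 * d * hc

theorem par2 {n k : ℕ} {v w : V3} (hv : ip2 v v = n) (hw : ip2 w w = (k : ℤ) ^ 2 * n) :
    (2 : ℤ) ∣ (k : ℤ) * n - ip2 v w := by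
  have e1 : (2 : ℤ) ∣ n - (v 0 + v 1 + v 2) := by
    rw [← hv]
    have h1 : (2 : ℤ) ∣ (v 0 + v 1 + v 2) * (v 0 + v 1 + v 2 - 1) := by
      have := Int.even_mul_pred_self (v 0 + v 1 + v 2)
      exact even_iff_two_dvd.1 this
    obtain ⟨c, hc⟩ := h1
    refine ⟨c + (v 0 * v 0 + 11 * (v 1 * v 1) + 11 * (v 2 * v 2) - 2 * (v 0 * v 1) -
      2 * (v 0 * v 2) - 12 * (v 1 * v 2)), ?_⟩
    unfold ip2
    linear_combination hc
  have e2 : (2 : ℤ) ∣ k * n - (w 0 + w 1 + w 2) := by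
    have h1 : (2 : ℤ) ∣ (w 0 + w 1 + w 2) * (w 0 + w 1 + w 2 - 1) := by
      have := Int.even_mul_pred_self (w 0 + w 1 + w 2)
      exact even_iff_two_dvd.1 this
    have h3 : (2 : ℤ) ∣ (n : ℤ) * (k * (k - 1)) := by
      have := Int.even_mul_pred_self (k : ℤ)
      exact dvd_mul_of_dvd_right (even_iff_two_dvd.1 this) _
    obtain ⟨c, hc⟩ := h1
    obtain ⟨d, hd⟩ := h3
    refine ⟨c - d + (w 0 * w 0 + 11 * (w 1 * w 1) + 11 * (w 2 * w 2) - 2 * (w 0 * w 1) -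
      2 * (w 0 * w 2) - 12 * (w 1 * w 2)), ?_⟩
    unfold ip2 at hw
    linear_combination hc - hd - hw
  obtain ⟨c, hc⟩ := e1
  obtain ⟨d, hd⟩ := e2
  have h3 : (2 : ℤ) ∣ (k : ℤ) * (n * (n - 1)) := by
    have := Int.even_mul_pred_self (n : ℤ)
    exact dvd_mul_of_dvd_right (even_iff_two_dvd.1 this) _
  obtain ⟨e, he⟩ := h3
  refine ⟨-e + n * d + k * n * c - 2 * c * d - (v 0 * w 0 + 11 * (v 1 * w 1) +
    11 * (v 2 * w 2) - (v 0 * w 1 + v 1 * w 0) - (v 0 * w 2 + v 2 * w 0) -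
    6 * (v 1 * w 2 + v 2 * w 1)), ?_⟩
  unfold ip2
  linear_combination (-1 : ℤ) * he + (n : ℤ) * hd + (k : ℤ) * n * hc -
    (n - (v 0 + v 1 + v 2)) * hd - 2 * d * hc

/-! ### sums over the inner products -/

/-- weighted pairs -/
theorem wfib {q : V3 → V3 → ℤ} (hq : IsF q) {A B : Finset V3} {n n2 N : ℤ}
    (hA : ∀ v, v ∈ A ↔ q v v = n) (hB : ∀ v, v ∈ B ↔ q v v = n2) (hN : n * n2 = N ^ 2)
    (hN0 : 0 ≤ N) (g : ℤ → ℤ) :
    ∑ v ∈ A, ∑ w ∈ B, g (q v w) =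
      ∑ b ∈ Icc (-N) N, (((A ×ˢ B).filter fun z => q z.1 z.2 = b).card : ℤ) * g b := by
  rw [← Finset.sum_product' A B (fun v w => g (q v w)),
    ← Finset.sum_fiberwise_of_maps_to (g := fun z : V3 × V3 => q z.1 z.2) (t := Icc (-N) N)]
  · refine Finset.sum_congr rfl fun b _ => ?_
    rw [Finset.sum_congr rfl (g := fun _ => g b), Finset.sum_const, nsmul_eq_mul]
    intro z hz
    rw [Finset.mem_filter] at hz
    rw [hz.2]
  · intro z hz
    rw [Finset.mem_product, hA, hB] at hz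
    have h4 := hq.cs z.1 z.2
    rw [hz.1, hz.2, hN] at h4
    rw [Finset.mem_Icc]
    exact abs_le.1 (abs_le_of_sq_le_sq h4 hN0)

/-- the sign as a function of the inner product -/
noncomputable def sb (a n : ℕ) (N b : ℤ) : ℤ := sgn a n ((N + b) / 2) ((N - b) / 2)

theorem AA_core {n k a : ℕ} (ha : Adm n a) (hk : ∀ p ∈ a.primeFactors, ¬ p ∣ k) :
    3 * (A1 n a * A1 (k ^ 2 * n : ℕ) a) + A2 n a * A2 (k ^ 2 * n : ℕ) a =
      ∑ b ∈ Icc (-((k * n : ℕ) : ℤ)) (k * n : ℕ),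
        (3 * cp1 n b (k ^ 2 * n : ℕ) + cp2 n b (k ^ 2 * n : ℕ) : ℤ) * sb a n (k * n : ℕ) b := by
  have hNN : (n : ℤ) * (k ^ 2 * n : ℕ) = ((k * n : ℕ) : ℤ) ^ 2 := by push_cast; ring
  have f1 := wfib isF1 (n := n) (n2 := (k ^ 2 * n : ℕ)) (N := (k * n : ℕ)) (A := vec1 n)
    (B := vec1 (k ^ 2 * n : ℕ)) (fun _ => mem_vec1) (fun _ => mem_vec1) hNN (by omega)
    (sb a n (k * n : ℕ))
  have f2 := wfib isF2 (n := n) (n2 := (k ^ 2 * n : ℕ)) (N := (k * n : ℕ)) (A := vec2 n)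
    (B := vec2 (k ^ 2 * n : ℕ)) (fun _ => mem_vec2) (fun _ => mem_vec2) hNN (by omega)
    (sb a n (k * n : ℕ))
  have g1 : A1 n a * A1 (k ^ 2 * n : ℕ) a =
      ∑ v ∈ vec1 n, ∑ w ∈ vec1 (k ^ 2 * n : ℕ), sb a n (k * n : ℕ) (ip1 v w) := by
    unfold A1
    rw [Finset.sum_mul_sum]
    refine Finset.sum_congr rfl fun v hv => Finset.sum_congr rfl fun w hw => ?_
    rw [mem_vec1] at hv hw
    have hw' : ip1 w w = (k : ℤ) ^ 2 * n := by rw [hw]; push_cast; ring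
    obtain ⟨T, hT⟩ := par1 hv hw'
    unfold sb
    have eT : (((k * n : ℕ) : ℤ) - ip1 v w) / 2 = T := by push_cast; omega
    have eS : (((k * n : ℕ) : ℤ) + ip1 v w) / 2 = k * n - T := by push_cast; omega
    rw [eT, eS]
    exact Psi1_mul ha hk hv hw' (by ring) (by linarith)
  have g2 : A2 n a * A2 (k ^ 2 * n : ℕ) a =
      ∑ v ∈ vec2 n, ∑ w ∈ vec2 (k ^ 2 * n : ℕ), sb a n (k * n : ℕ) (ip2 v w) := by
    unfold A2
    rw [Finset.sum_mul_sum]
    refine Finset.sum_congr rfl fun v hv => Finset.sum_congr rfl fun w hw => ?_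
    rw [mem_vec2] at hv hw
    have hw' : ip2 w w = (k : ℤ) ^ 2 * n := by rw [hw]; push_cast; ring
    obtain ⟨T, hT⟩ := par2 hv hw'
    unfold sb
    have eT : (((k * n : ℕ) : ℤ) - ip2 v w) / 2 = T := by push_cast; omega
    have eS : (((k * n : ℕ) : ℤ) + ip2 v w) / 2 = k * n - T := by push_cast; omega
    rw [eT, eS]
    exact Psi2_mul ha hk hv hw' (by ring) (by linarith)
  rw [g1, g2, f1, f2, Finset.mul_sum, ← Finset.sum_add_distrib]
  refine Finset.sum_congr rfl fun b _ => ?_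
  unfold cp1 cp2
  ring

theorem cp_par1 {n k : ℕ} {b : ℤ} (h : ¬ (2 : ℤ) ∣ ((k * n : ℕ) : ℤ) - b) :
    cp1 n b (k ^ 2 * n : ℕ) = 0 ∧ cp2 n b (k ^ 2 * n : ℕ) = 0 := by
  unfold cp1 cp2
  rw [Finset.card_eq_zero, Finset.card_eq_zero, Finset.filter_eq_empty_iff,
    Finset.filter_eq_empty_iff]
  constructor
  · rintro ⟨v, w⟩ hz hb
    rw [Finset.mem_product, mem_vec1, mem_vec1] at hz
    apply h
    have := par1 (k := k) hz.1 (by rw [hz.2]; push_cast; ring)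
    rw [← hb]
    push_cast
    exact this
  · rintro ⟨v, w⟩ hz hb
    rw [Finset.mem_product, mem_vec2, mem_vec2] at hz
    apply h
    have := par2 (k := k) hz.1 (by rw [hz.2]; push_cast; ring)
    rw [← hb]
    push_cast
    exact this

theorem sum_T (N : ℕ) (f : ℤ → ℤ) (h : ∀ b, ¬ (2 : ℤ) ∣ (N : ℤ) - b → f b = 0) :
    ∑ b ∈ Icc (-(N : ℤ)) N, f b = ∑ T ∈ range (N + 1), f ((N - T : ℕ) - (T : ℤ)) := by
  symm
  refine Finset.sum_of_injOn (fun T : ℕ => ((N - T : ℕ) : ℤ) - (T : ℤ)) ?_ ?_ ?_ ?_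
  · intro a ha b hb hab
    rw [Finset.mem_coe, Finset.mem_range] at ha hb
    simp only at hab
    omega
  · intro T hT
    rw [Finset.mem_coe, Finset.mem_range] at hT
    rw [Finset.mem_coe, Finset.mem_Icc]
    constructor <;> (simp only; omega)
  · intro b hb hb'
    rw [Finset.mem_Icc] at hb
    refine h b ?_
    intro hd
    apply hb'
    obtain ⟨c, hc⟩ := hd
    refine ⟨c.toNat, ?_, ?_⟩
    · rw [Finset.mem_coe, Finset.mem_range]
      omega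
    · simp only
      omega
  · intro T _
    rfl

theorem AA_T {n k a : ℕ} (ha : Adm n a) (hk : ∀ p ∈ a.primeFactors, ¬ p ∣ k) :
    3 * (A1 n a * A1 (k ^ 2 * n : ℕ) a) + A2 n a * A2 (k ^ 2 * n : ℕ) a =
      ∑ T ∈ range (k * n + 1), sgn a n ((k * n - T : ℕ) : ℤ) T *
        (3 * cp1 n ((k * n - T : ℕ) - (T : ℤ)) (k ^ 2 * n : ℕ) +
          cp2 n ((k * n - T : ℕ) - (T : ℤ)) (k ^ 2 * n : ℕ)) := by
  rw [AA_core ha hk, sum_T (k * n) (fun b => (3 * cp1 n b (k ^ 2 * n : ℕ) +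
    cp2 n b (k ^ 2 * n : ℕ) : ℤ) * sb a n (k * n : ℕ) b)]
  · refine Finset.sum_congr rfl fun T hT => ?_
    rw [Finset.mem_range] at hT
    have e1 : (((k * n : ℕ) : ℤ) + (((k * n - T : ℕ) : ℤ) - T)) / 2 = ((k * n - T : ℕ) : ℤ) := by
      omega
    have e2 : (((k * n : ℕ) : ℤ) - (((k * n - T : ℕ) : ℤ) - T)) / 2 = (T : ℤ) := by
      omega
    simp only [sb]
    rw [e1, e2]
    ring
  · intro b hb
    obtain ⟨h1, h3⟩ := cp_par1 (n := n) (k := k) hb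
    rw [h1, h3]
    ring

theorem t_AA : S_AA := by
  intro n a ha
  have h := AA_T (n := n) (k := 1) (a := a) ha
    (fun p hp => (adm_p ha hp).1.not_dvd_one)
  simp only [one_pow, one_mul] at h
  rw [← h]
  ring

theorem t_AA4 : S_AA4 := by
  intro n a ha
  have h := AA_T (n := n) (k := 2) (a := a) ha (by
    intro p hp h
    obtain ⟨p1, p2, -⟩ := adm_p ha hp
    exact p2 ((Nat.prime_dvd_prime_iff_eq p1 Nat.prime_two).1 h))
  have e : (2 : ℕ) ^ 2 = 4 := by norm_num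
  rw [e] at h
  push_cast at h ⊢
  exact h

/-! ### the bilinear identities with signs -/

theorem Psi1_neg {n k a : ℕ} (ha : Adm n a) (hk : ∀ p ∈ a.primeFactors, ¬ p ∣ k) {v : V3}
    (hv : ip1 v v = (k : ℤ) ^ 2 * n) : Psi1 a (-v) = jacobiSym (-1) a * Psi1 a v := by
  unfold Psi1
  rw [jac_prod ha.1, ← Finset.prod_mul_distrib]
  refine Finset.prod_congr rfl fun p hp => ?_
  obtain ⟨p1, p2, p3, p4, p5⟩ := adm_p ha hp
  have : Fact p.Prime := ⟨p1⟩
  have e : (-v : V3) = (-1 : ℤ) • v := by simp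
  rw [e, psi1_smul p2 p3 (by simp) (iso1 p1 p4 p5 (hk p hp) hv)]

theorem Psi2_neg {n k a : ℕ} (ha : Adm n a) (hk : ∀ p ∈ a.primeFactors, ¬ p ∣ k) {v : V3}
    (hv : ip2 v v = (k : ℤ) ^ 2 * n) : Psi2 a (-v) = jacobiSym (-1) a * Psi2 a v := by
  unfold Psi2
  rw [jac_prod ha.1, ← Finset.prod_mul_distrib]
  refine Finset.prod_congr rfl fun p hp => ?_
  obtain ⟨p1, p2, p3, p4, p5⟩ := adm_p ha hp
  have : Fact p.Prime := ⟨p1⟩
  have e : (-v : V3) = (-1 : ℤ) • v := by simp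
  rw [e, psi2_smul p2 p3 (by simp) (iso2 p1 p4 p5 (hk p hp) hv)]

theorem sb_eq1 {n k a : ℕ} (ha : Adm n a) (hk : ∀ p ∈ a.primeFactors, ¬ p ∣ k) {v w : V3}
    (hv : ip1 v v = n) (hw : ip1 w w = (k : ℤ) ^ 2 * n) :
    sb a n (k * n : ℕ) (ip1 v w) = Psi1 a v * Psi1 a w := by
  obtain ⟨T, hT⟩ := par1 hv hw
  unfold sb
  have eT : (((k * n : ℕ) : ℤ) - ip1 v w) / 2 = T := by push_cast; omega
  have eS : (((k * n : ℕ) : ℤ) + ip1 v w) / 2 = k * n - T := by push_cast; omega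
  rw [eT, eS]
  exact (Psi1_mul ha hk hv hw (by ring) (by linarith)).symm

theorem sb_eq2 {n k a : ℕ} (ha : Adm n a) (hk : ∀ p ∈ a.primeFactors, ¬ p ∣ k) {v w : V3}
    (hv : ip2 v v = n) (hw : ip2 w w = (k : ℤ) ^ 2 * n) :
    sb a n (k * n : ℕ) (ip2 v w) = Psi2 a v * Psi2 a w := by
  obtain ⟨T, hT⟩ := par2 hv hw
  unfold sb
  have eT : (((k * n : ℕ) : ℤ) - ip2 v w) / 2 = T := by push_cast; omega
  have eS : (((k * n : ℕ) : ℤ) + ip2 v w) / 2 = k * n - T := by push_cast; omega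
  rw [eT, eS]
  exact (Psi2_mul ha hk hv hw (by ring) (by linarith)).symm

/-- the sign of the proportional vectors -/
theorem sb_end {n k a : ℕ} (ha : Adm n a) (hk : ∀ p ∈ a.primeFactors, ¬ p ∣ k) :
    sb a n (k * n : ℕ) (k * n : ℕ) = jacobiSym k a := by
  have e1 : (((k * n : ℕ) : ℤ) + (k * n : ℕ)) / 2 = (k * n : ℕ) := by omega
  have e2 : (((k * n : ℕ) : ℤ) - (k * n : ℕ)) / 2 = 0 := by omega
  unfold sb
  rw [e1, e2]
  unfold sgn
  rw [jac_prod ha.1]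
  refine Finset.prod_congr rfl fun p hp => ?_
  obtain ⟨p1, p2, p3, p4, p5⟩ := adm_p ha hp
  have hpf : Fact p.Prime := ⟨p1⟩
  unfold rel
  rw [if_neg (by simp), if_neg (by simp)]
  obtain ⟨m, hm⟩ := p4
  have h1 : n / p = m := by rw [hm]; exact Nat.mul_div_cancel_left _ p1.pos
  have h3 : ((k * n : ℕ) : ℤ) / p = k * m := by
    have e : ((k * n : ℕ) : ℤ) = p * (k * m) := by rw [hm]; push_cast; ring
    rw [e]
    exact Int.mul_ediv_cancel_left _ (by exact_mod_cast p1.ne_zero)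
  rw [h1, h3, jac_eq, jac_eq]
  have m0 : ((m : ℤ) : ZMod p) ≠ 0 := by
    rw [Ne, ← dvd_cast]
    intro h
    have h4 : p ∣ m := by exact_mod_cast h
    obtain ⟨c, hc⟩ := h4
    exact p5 ⟨c, by rw [hm, hc]; ring⟩
  have k0 : ((k : ℤ) : ZMod p) ≠ 0 := by
    rw [Ne, ← dvd_cast]
    intro h
    exact hk p hp (by exact_mod_cast h)
  push_cast at m0 k0 ⊢
  exact qc_eq (s := (k : ZMod p) * m) (by ring) (mul_ne_zero m0 (mul_ne_zero k0 m0)) k0

theorem jac_neg_one {a : ℕ} (h : a % 4 = 1) : jacobiSym (-1) a = 1 := by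
  rw [jacobiSym.at_neg_one (Nat.odd_iff.2 (by omega)), ZMod.χ₄_nat_one_mod_four h]

/-- **the bilinear identity with signs** in general -/
theorem bila_core {n k a : ℕ} (hn : 0 < n) (hk : 0 < k) (h17 : ¬ 17 ∣ k * n) (ha : Adm n a)
    (ha4 : a % 4 = 1) (hka : ∀ p ∈ a.primeFactors, ¬ p ∣ k) (L : ℤ → ℕ → ℤ)
    (hC : ∀ (b : ℤ) (D : ℕ), 0 < D → (D : ℤ) = n * (k ^ 2 * n : ℕ) - b ^ 2 →
      (3 * cp1 n b (k ^ 2 * n : ℕ) + cp2 n b (k ^ 2 * n : ℕ) : ℤ) = 6 * L b D)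
    (hz17 : ∀ (b : ℤ) (D : ℕ), ¬ 17 ∣ D → L b D = 0) (hL0 : L (k * n : ℕ) 0 = 0) :
    12 * ∑ T ∈ (range (k * n)).filter (fun T => 17 ∣ T), sgn a n ((k * n - T : ℕ) : ℤ) T *
      L (((k * n : ℕ) : ℤ) - 2 * T) (4 * (k * n - T) * T) =
      3 * (A1 n a * A1 (k ^ 2 * n : ℕ) a) + A2 n a * A2 (k ^ 2 * n : ℕ) a -
        2 * jacobiSym k a * rr n := by
  rw [AA_core ha hka]
  set N : ℕ := k * n with hNdef
  set n2 : ℕ := k ^ 2 * n with hn2
  have hN0 : 0 < N := Nat.mul_pos hk hn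
  have hNN : (n : ℤ) * n2 = (N : ℤ) ^ 2 := by
    rw [hNdef, hn2]; push_cast; ring
  have hB : ((n2 : ℕ) : ℤ) = (k : ℤ) ^ 2 * n := by rw [hn2]; push_cast; ring
  have hNk : ((N : ℕ) : ℤ) = (k : ℤ) * n := by rw [hNdef]; push_cast; ring
  set P : ℤ → ℤ := fun b => (3 * (cp1 n b n2 : ℤ) + cp2 n b n2) * sb a n N b with hP
  have s1 : ∀ b, (cp1 n (-b) n2) = cp1 n b n2 := fun b =>
    card_neg isF1 (fun v hv => by rw [mem_vec1] at hv ⊢; rw [isF1.neg', hv]) b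
  have s2 : ∀ b, (cp2 n (-b) n2) = cp2 n b n2 := fun b =>
    card_neg isF2 (fun v hv => by rw [mem_vec2] at hv ⊢; rw [isF2.neg', hv]) b
  have s3 : ∀ b, P (-b) = P b := by
    intro b
    simp only [hP]
    rw [s1, s2]
    by_cases h1 : cp1 n b n2 = 0
    · by_cases h3 : cp2 n b n2 = 0
      · rw [h1, h3]
        ring
      · unfold cp2 at h3
        obtain ⟨⟨v, w⟩, hz⟩ := Finset.card_pos.1 (Nat.pos_of_ne_zero h3)
        rw [Finset.mem_filter, Finset.mem_product, mem_vec2, mem_vec2] at hz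
        obtain ⟨⟨hv, hw⟩, hb⟩ := hz
        simp only at hv hw hb
        rw [hB] at hw
        have t1 := sb_eq2 ha hka hv hw
        have hw' : ip2 (-w) (-w) = (k : ℤ) ^ 2 * n := by rw [isF2.neg', hw]
        have t2 := sb_eq2 ha hka hv hw'
        rw [isF2.neg, hb] at t2
        rw [hb] at t1
        rw [t1, t2, Psi2_neg ha hka hw, jac_neg_one ha4, one_mul]
    · unfold cp1 at h1
      obtain ⟨⟨v, w⟩, hz⟩ := Finset.card_pos.1 (Nat.pos_of_ne_zero h1)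
      rw [Finset.mem_filter, Finset.mem_product, mem_vec1, mem_vec1] at hz
      obtain ⟨⟨hv, hw⟩, hb⟩ := hz
      simp only at hv hw hb
      rw [hB] at hw
      have t1 := sb_eq1 ha hka hv hw
      have hw' : ip1 (-w) (-w) = (k : ℤ) ^ 2 * n := by rw [isF1.neg', hw]
      have t2 := sb_eq1 ha hka hv hw'
      rw [isF1.neg, hb] at t2
      rw [hb] at t1
      rw [t1, t2, Psi1_neg ha hka hw, jac_neg_one ha4, one_mul]
  have e1 : cp1 n N n2 = (vec1 n).card := by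
    unfold cp1
    rw [hNk, hB]
    exact card_end isF1 (fun _ => mem_vec1) (fun _ => mem_vec1)
  have e2 : cp2 n N n2 = (vec2 n).card := by
    unfold cp2
    rw [hNk, hB]
    exact card_end isF2 (fun _ => mem_vec2) (fun _ => mem_vec2)
  have e3 : P N = jacobiSym k a * rr n := by
    simp only [hP]
    rw [e1, e2, sb_end ha hka]
    unfold rr
    ring
  have hD : ∀ b : ℤ, -(N : ℤ) < b → b < N → ∃ D : ℕ, 0 < D ∧ (D : ℤ) = n * n2 - b ^ 2 := by
    intro b h1 h2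
    have hpos : 0 < (N : ℤ) ^ 2 - b ^ 2 := by
      have e : (N : ℤ) ^ 2 - b ^ 2 = (N - b) * (N + b) := by ring
      rw [e]
      exact mul_pos (by omega) (by omega)
    refine ⟨((N : ℤ) ^ 2 - b ^ 2).toNat, by omega, ?_⟩
    rw [Int.toNat_of_nonneg hpos.le, hNN]
  have m1 : ∑ b ∈ Ioo (-(N : ℤ)) N, P b =
      2 * ∑ T ∈ (range N).filter (fun T => 0 < T ∧ 17 ∣ T), P ((N : ℤ) - 2 * T) := by
    refine sum_mid (by norm_num) (by norm_num) h17 P s3 ?_ ?_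
    · intro b h1 h2 h3
      obtain ⟨D, hD0, hDD⟩ := hD b h1 h2
      simp only [hP]
      rw [hC b D hD0 hDD, hz17 b D, mul_zero, zero_mul]
      intro h
      apply h3
      rw [← hNN, ← hDD]
      exact_mod_cast h
    · intro b h1 h2 h3
      simp only [hP]
      obtain ⟨h4, h5⟩ := cp_par1 (n := n) (k := k) (b := b) (by rw [← hNdef]; exact h3)
      rw [h4, h5]
      ring
  have m2 : ∑ T ∈ (range N).filter (fun T => 0 < T ∧ 17 ∣ T), P ((N : ℤ) - 2 * T) =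
      6 * ∑ T ∈ (range N).filter (fun T => 17 ∣ T), sgn a n ((N - T : ℕ) : ℤ) T *
        L ((N : ℤ) - 2 * T) (4 * (N - T) * T) := by
    rw [Finset.mul_sum]
    refine Finset.sum_subset_zero_on_sdiff ?_ ?_ ?_
    · intro T hT
      rw [Finset.mem_filter] at hT ⊢
      exact ⟨hT.1, hT.2.2⟩
    · intro T hT
      rw [Finset.mem_sdiff, Finset.mem_filter, Finset.mem_filter] at hT
      have : T = 0 := by
        by_contra h
        exact hT.2 ⟨hT.1.1, Nat.pos_of_ne_zero h, hT.1.2⟩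
      subst this
      have e : (N : ℤ) - 2 * ((0 : ℕ) : ℤ) = N := by push_cast; ring
      rw [mul_zero, e, hL0, mul_zero, mul_zero]
    · intro T hT
      rw [Finset.mem_filter, Finset.mem_range] at hT
      simp only [hP]
      rw [hC ((N : ℤ) - 2 * T) (4 * (N - T) * T) (Nat.mul_pos (by omega) hT.2.1) (by
        rw [hNN]
        push_cast [Nat.cast_sub hT.1.le]
        ring)]
      unfold sb
      have e4 : ((N : ℤ) + ((N : ℤ) - 2 * T)) / 2 = ((N - T : ℕ) : ℤ) := by omega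
      have e5 : ((N : ℤ) - ((N : ℤ) - 2 * T)) / 2 = (T : ℤ) := by omega
      rw [e4, e5]
      ring
  have f3 := sum_ends N hN0 P
  rw [s3, e3, m1, m2] at f3
  change _ = (∑ b ∈ Icc (-(N : ℤ)) N, P b) - _
  rw [f3]
  ring

theorem adm_of {n a : ℕ} (hn : Squarefree n) (h4 : n % 4 = 3) (h17 : ¬ 17 ∣ n) (h : a ∣ n) :
    Adm n a := by
  refine ⟨hn.squarefree_of_dvd h, ?_, fun h1 => h17 (h1.trans h), fun p hp => ?_⟩
  · exact Odd.of_dvd_nat (Nat.odd_iff.2 (by omega)) h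
  · have hp1 := Nat.prime_of_mem_primeFactors hp
    refine ⟨(Nat.dvd_of_mem_primeFactors hp).trans h, ?_⟩
    intro h1
    have := hn p (by rw [← pow_two]; exact h1)
    exact hp1.one_lt.ne' (Nat.isUnit_iff.1 this)

theorem cm17 {n : ℕ} (h : Cm n) : ¬ 17 ∣ n := by
  intro h1
  have h3 := h.2.2
  have : jacobiSym n 17 = 0 := by
    rw [jacobiSym.eq_zero_iff]
    refine ⟨by norm_num, ?_⟩
    intro h4
    have h5 : (17 : ℕ) ∣ Int.gcd (n : ℤ) (17 : ℕ) := by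
      rw [Int.gcd_natCast_natCast]
      exact Nat.dvd_gcd h1 dvd_rfl
    rw [h4] at h5
    omega
  rw [this] at h3
  omega

/-- BILA1: the bilinear identity with signs, norm `n` -/
theorem t_BILA1 (hPC : S_PC) : S_BILA1 := by
  intro n a hn han ha4
  have h17 := cm17 hn
  have hn0 : 0 < n := Nat.pos_of_ne_zero (by rintro rfl; exact absurd hn.1 not_squarefree_zero)
  have ha := adm_of hn.1 hn.2.1 h17 han
  have h := bila_core (n := n) (k := 1) (a := a) hn0 one_pos (by simpa using h17) ha ha4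
    (fun p hp => (adm_p ha hp).1.not_dvd_one) (fun _ D => loc n D) ?_ ?_ ?_
  · simp only [one_pow, one_mul] at h
    unfold AAs
    rw [h]
    have : jacobiSym ((1 : ℕ) : ℤ) a = 1 := by simp
    rw [this]
    ring
  · intro b D hD hDD
    simp only [one_pow, one_mul] at hDD ⊢
    exact hPC n n b D hn.1 hn.2.1 h17 hD hDD
  · intro b D hD
    unfold loc
    rw [if_neg]
    rw [Nat.factorization_eq_zero_of_not_dvd hD]
    decide
  · unfold loc
    rw [if_neg]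
    simp

/-- BILA2: the bilinear identity with signs, norms `n` and `4 n` -/
theorem t_BILA2 (hPC : S_PC) : S_BILA2 := by
  intro n a hn han ha4
  have h17 := cm17 hn
  have hn0 : 0 < n := Nat.pos_of_ne_zero (by rintro rfl; exact absurd hn.1 not_squarefree_zero)
  have ha := adm_of hn.1 hn.2.1 h17 han
  have h := bila_core (n := n) (k := 2) (a := a) hn0 two_pos (by
      intro h
      rcases (Nat.Prime.dvd_mul (by norm_num)).1 h with h1 | h1
      · omega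
      · exact h17 h1) ha ha4 (by
      intro p hp h
      obtain ⟨p1, p2, -⟩ := adm_p ha hp
      exact p2 ((Nat.prime_dvd_prime_iff_eq p1 Nat.prime_two).1 h)) (fun _ D => loc n D) ?_ ?_ ?_
  · have e : (2 : ℕ) ^ 2 = 4 := by norm_num
    rw [e] at h
    unfold AAs
    push_cast at h ⊢
    rw [h]
  · intro b D hD hDD
    exact hPC n (2 ^ 2 * n) b D hn.1 hn.2.1 h17 hD hDD
  · intro b D hD
    unfold loc
    rw [if_neg]
    rw [Nat.factorization_eq_zero_of_not_dvd hD]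
    decide
  · unfold loc
    rw [if_neg]
    simp

end Pool.Agent.N844.P17G
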