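import Mathlib
import Pool.Agent.N844.P17G.AA
import Pool.Agent.N575.P17.HE

/-!
# P17G: the Hecke relation at `2` with signs, vanishing, and the sum over the divisors
-/

set_option autoImplicit false
set_option linter.all false

namespace Pool.Agent.N844.P17G

open Finset
open Pool.Agent.N969.P15 (V3 ep2)
open Pool.Agent.N972.P17
open Pool.Agent.N973.P17 (mem_vec1 mem_vec2)
open Pool.Agent.N575.P17 (E2 A410 A411 A412 A420 A421 A422 m410 g410 m411 g411 m412 g412 m420 g420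
  m421 g421 m422 g422 pt4_1 pt4_2)
open Pool.Agent.N575.P15 (ext3)

/-- weighted sums over the image of a similitude -/
theorem sum_img {S S' : Finset V3} {q q' : V3 → ℤ} {n f : ℤ} (hf : f ≠ 0)
    (hS : ∀ v, v ∈ S ↔ q v = n) (hS' : ∀ w, w ∈ S' ↔ q' w = f * n) (m g : V3 → V3)
    (A : V3 → Prop) [DecidablePred A] (h1 : ∀ v, q' (m v) = f * q v) (h2 : ∀ v, A (m v))
    (h3 : ∀ v, g (m v) = v) (h4 : ∀ w, A w → m (g w) = w) (G : V3 → ℤ) :
    ∑ w ∈ S', (if A w then G w else 0) = ∑ v ∈ S, G (m v) := by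
  rw [← Finset.sum_filter]
  symm
  refine Finset.sum_bij (fun v _ => m v) ?_ ?_ ?_ ?_
  · intro v hv
    rw [hS] at hv
    rw [mem_filter, hS', h1, hv]
    exact ⟨rfl, h2 v⟩
  · intro v _ w _ h
    rw [← h3 v, ← h3 w, h]
  · intro w hw
    rw [mem_filter, hS'] at hw
    refine ⟨g w, ?_, h4 w hw.2⟩
    rw [hS]
    have h6 := h1 (g w)
    rw [h4 w hw.2, hw.1] at h6
    exact (mul_left_cancel₀ hf h6).symm
  · intro v _
    rfl

theorem w410 (n : ℤ) (G : V3 → ℤ) :
    ∑ w ∈ vec1 (4 * n), (if A410 w then G w else 0) = ∑ v ∈ vec1 n, G (m410 v) := by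
  refine sum_img (f := 4) (by norm_num) (fun v => mem_vec1 (n := n)) (fun v => mem_vec1)
    m410 g410 A410 ?_ ?_ ?_ ?_ G
  · intro v
    simp [m410, ip1, ip1]
    ring
  · intro v
    simp only [A410, m410, Matrix.cons_val_zero, Matrix.cons_val_one, Matrix.cons_val]
    refine ⟨?_, ?_, ?_⟩ <;> omega
  · intro v
    refine ext3 ?_ ?_ ?_ <;>
      simp only [g410, m410, Matrix.cons_val_zero, Matrix.cons_val_one, Matrix.cons_val] <;> omega
  · rintro w ⟨h0, h1, h2⟩
    refine ext3 ?_ ?_ ?_ <;>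
      simp only [g410, m410, Matrix.cons_val_zero, Matrix.cons_val_one, Matrix.cons_val] <;> omega

theorem w411 (n : ℤ) (G : V3 → ℤ) :
    ∑ w ∈ vec1 (4 * n), (if A411 w then G w else 0) = ∑ v ∈ vec1 n, G (m411 v) := by
  refine sum_img (f := 4) (by norm_num) (fun v => mem_vec1 (n := n)) (fun v => mem_vec1)
    m411 g411 A411 ?_ ?_ ?_ ?_ G
  · intro v
    simp [m411, ip1, ip1]
    ring
  · intro v
    simp only [A411, m411, Matrix.cons_val_zero, Matrix.cons_val_one, Matrix.cons_val]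
    refine ⟨?_, ?_, ?_⟩ <;> omega
  · intro v
    refine ext3 ?_ ?_ ?_ <;>
      simp only [g411, m411, Matrix.cons_val_zero, Matrix.cons_val_one, Matrix.cons_val] <;> omega
  · rintro w ⟨h0, h1, h2⟩
    refine ext3 ?_ ?_ ?_ <;>
      simp only [g411, m411, Matrix.cons_val_zero, Matrix.cons_val_one, Matrix.cons_val] <;> omega

theorem w412 (n : ℤ) (G : V3 → ℤ) :
    ∑ w ∈ vec1 (4 * n), (if A412 w then G w else 0) = ∑ v ∈ vec2 n, G (m412 v) := by
  refine sum_img (f := 4) (by norm_num) (fun v => mem_vec2 (n := n)) (fun v => mem_vec1)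
    m412 g412 A412 ?_ ?_ ?_ ?_ G
  · intro v
    simp [m412, ip2, ip1]
    ring
  · intro v
    simp only [A412, m412, Matrix.cons_val_zero, Matrix.cons_val_one, Matrix.cons_val]
    refine ⟨?_, ?_, ?_⟩ <;> omega
  · intro v
    refine ext3 ?_ ?_ ?_ <;>
      simp only [g412, m412, Matrix.cons_val_zero, Matrix.cons_val_one, Matrix.cons_val] <;> omega
  · rintro w ⟨h0, h1, h2⟩
    refine ext3 ?_ ?_ ?_ <;>
      simp only [g412, m412, Matrix.cons_val_zero, Matrix.cons_val_one, Matrix.cons_val] <;> omega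

theorem w420 (n : ℤ) (G : V3 → ℤ) :
    ∑ w ∈ vec2 (4 * n), (if A420 w then G w else 0) = ∑ v ∈ vec1 n, G (m420 v) := by
  refine sum_img (f := 4) (by norm_num) (fun v => mem_vec1 (n := n)) (fun v => mem_vec2)
    m420 g420 A420 ?_ ?_ ?_ ?_ G
  · intro v
    simp [m420, ip1, ip2]
    ring
  · intro v
    simp only [A420, m420, Matrix.cons_val_zero, Matrix.cons_val_one, Matrix.cons_val]
    refine ⟨?_, ?_, ?_⟩ <;> omega
  · intro v
    refine ext3 ?_ ?_ ?_ <;>
      simp only [g420, m420, Matrix.cons_val_zero, Matrix.cons_val_one, Matrix.cons_val] <;> omega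
  · rintro w ⟨h0, h1, h2⟩
    refine ext3 ?_ ?_ ?_ <;>
      simp only [g420, m420, Matrix.cons_val_zero, Matrix.cons_val_one, Matrix.cons_val] <;> omega

theorem w421 (n : ℤ) (G : V3 → ℤ) :
    ∑ w ∈ vec2 (4 * n), (if A421 w then G w else 0) = ∑ v ∈ vec1 n, G (m421 v) := by
  refine sum_img (f := 4) (by norm_num) (fun v => mem_vec1 (n := n)) (fun v => mem_vec2)
    m421 g421 A421 ?_ ?_ ?_ ?_ G
  · intro v
    simp [m421, ip1, ip2]
    ring
  · intro v
    simp only [A421, m421, Matrix.cons_val_zero, Matrix.cons_val_one, Matrix.cons_val]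
    refine ⟨?_, ?_, ?_⟩ <;> omega
  · intro v
    refine ext3 ?_ ?_ ?_ <;>
      simp only [g421, m421, Matrix.cons_val_zero, Matrix.cons_val_one, Matrix.cons_val] <;> omega
  · rintro w ⟨h0, h1, h2⟩
    refine ext3 ?_ ?_ ?_ <;>
      simp only [g421, m421, Matrix.cons_val_zero, Matrix.cons_val_one, Matrix.cons_val] <;> omega

theorem w422 (n : ℤ) (G : V3 → ℤ) :
    ∑ w ∈ vec2 (4 * n), (if A422 w then G w else 0) = ∑ v ∈ vec1 n, G (m422 v) := by
  refine sum_img (f := 4) (by norm_num) (fun v => mem_vec1 (n := n)) (fun v => mem_vec2)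
    m422 g422 A422 ?_ ?_ ?_ ?_ G
  · intro v
    simp [m422, ip1, ip2]
    ring
  · intro v
    simp only [A422, m422, Matrix.cons_val_zero, Matrix.cons_val_one, Matrix.cons_val]
    refine ⟨?_, ?_, ?_⟩ <;> omega
  · intro v
    refine ext3 ?_ ?_ ?_ <;>
      simp only [g422, m422, Matrix.cons_val_zero, Matrix.cons_val_one, Matrix.cons_val] <;> omega
  · rintro w ⟨h0, h1, h2⟩
    refine ext3 ?_ ?_ ?_ <;>
      simp only [g422, m422, Matrix.cons_val_zero, Matrix.cons_val_one, Matrix.cons_val] <;> omega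

theorem wE2 {S S' : Finset V3} {q : V3 → ℤ} {n : ℤ} (hS : ∀ v, v ∈ S ↔ q v = n)
    (hS' : ∀ w, w ∈ S' ↔ q w = 4 * n) (hq : ∀ v : V3, q ((2 : ℤ) • v) = 4 * q v) (G : V3 → ℤ) :
    ∑ w ∈ S', (if E2 w then G w else 0) = ∑ v ∈ S, G ((2 : ℤ) • v) := by
  refine sum_img (f := 4) (by norm_num) hS hS' (fun v => (2 : ℤ) • v) (fun w i => w i / 2) E2 hq
    ?_ ?_ ?_ G
  · intro v
    refine ⟨?_, ?_, ?_⟩ <;> simp
  · intro v
    funext i
    simp
  · rintro w ⟨h0, h1, h2⟩
    refine ext3 ?_ ?_ ?_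
    · show 2 * (w 0 / 2) = w 0
      omega
    · show 2 * (w 1 / 2) = w 1
      omega
    · show 2 * (w 2 / 2) = w 2
      omega

/-! ### the similitudes -/

theorem sim_m410 : Sim ip1 ip1 2 m410 where
  iso := by intro v w; simp [m410, ip1]; ring
  lin := by
    intro x y v w
    funext i
    fin_cases i <;> simp [m410] <;> ring

theorem sim_m411 : Sim ip1 ip1 2 m411 where
  iso := by intro v w; simp [m411, ip1]; ring
  lin := by
    intro x y v w
    funext i
    fin_cases i <;> simp [m411] <;> ring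

theorem sim_m420 : Sim ip1 ip2 2 m420 where
  iso := by intro v w; simp [m420, ip1, ip2]; ring
  lin := by
    intro x y v w
    funext i
    fin_cases i <;> simp [m420] <;> ring

theorem sim_m421 : Sim ip1 ip2 2 m421 where
  iso := by intro v w; simp [m421, ip1, ip2]; ring
  lin := by
    intro x y v w
    funext i
    fin_cases i <;> simp [m421] <;> ring

theorem sim_m422 : Sim ip1 ip2 2 m422 where
  iso := by intro v w; simp [m422, ip1, ip2]; ring
  lin := by
    intro x y v w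
    funext i
    fin_cases i <;> simp [m422] <;> ring

/-- a similitude acts by a sign on the product of the characters -/
theorem Psi1_sim {n a : ℕ} (ha : Adm n a) {f : ℤ} {M : V3 → V3} (hM : Sim ip1 ip1 f M) {s : ℤ}
    (hf : ∀ p ∈ a.primeFactors, (f : ZMod p) ≠ 0)
    (hs : ∀ p ∈ a.primeFactors, ∀ v, Iso ip1 p v → sig ip1 p v (M v) = jacobiSym s p) {v : V3}
    (hv : ip1 v v = n) : Psi1 a (M v) = jacobiSym s a * Psi1 a v := by
  unfold Psi1
  rw [jac_prod ha.1, ← Finset.prod_mul_distrib]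
  refine Finset.prod_congr rfl fun p hp => ?_
  obtain ⟨p1, p2, p3, p4, p5⟩ := adm_p ha hp
  have : Fact p.Prime := ⟨p1⟩
  have iv := iso1' p1 p4 p5 hv
  rw [psi1_sim p2 p3 hM (hf p hp) iv, hs p hp v iv]

theorem adm_f2 {n a : ℕ} (ha : Adm n a) : ∀ p ∈ a.primeFactors, ((2 : ℤ) : ZMod p) ≠ 0 := by
  intro p hp
  obtain ⟨p1, p2, p3, p4, p5⟩ := adm_p ha hp
  have : Fact p.Prime := ⟨p1⟩
  exact f2 p2

theorem adm_f4 {n a : ℕ} (ha : Adm n a) : ∀ p ∈ a.primeFactors, ((2 * 2 : ℤ) : ZMod p) ≠ 0 := by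
  intro p hp
  obtain ⟨p1, p2, p3, p4, p5⟩ := adm_p ha hp
  have : Fact p.Prime := ⟨p1⟩
  rw [Int.cast_mul]
  exact mul_ne_zero (f2 p2) (f2 p2)

theorem Psi_m410 {n a : ℕ} (ha : Adm n a) {v : V3} (hv : ip1 v v = n) :
    Psi1 a (m410 v) = jacobiSym 17 a * Psi1 a v := by
  refine Psi1_sim ha sim_m410 (adm_f2 ha) ?_ hv
  intro p hp v iv
  obtain ⟨p1, p2, p3, p4, p5⟩ := adm_p ha hp
  have : Fact p.Prime := ⟨p1⟩
  rw [← qc34 p2 p3]
  refine sim_sign frm1 sim_m410 p2 p3 (f2 p2) (l := ![0, 1, -1]) (m := -2) ⟨1, by simp⟩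
    (f34 p2 p3) ?_ iv
  intro v
  simp [m410, ip1]
  ring

theorem Psi_m411 {n a : ℕ} (ha : Adm n a) {v : V3} (hv : ip1 v v = n) :
    Psi1 a (m411 v) = jacobiSym 17 a * Psi1 a v := by
  refine Psi1_sim ha sim_m411 (adm_f2 ha) ?_ hv
  intro p hp v iv
  obtain ⟨p1, p2, p3, p4, p5⟩ := adm_p ha hp
  have : Fact p.Prime := ⟨p1⟩
  rw [← qc34 p2 p3]
  refine sim_sign frm1 sim_m411 p2 p3 (f2 p2) (l := ![0, 1, 0]) (m := -2) ⟨1, by simp⟩
    (f34 p2 p3) ?_ iv
  intro v
  simp [m411, ip1]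
  ring

theorem Psi2_eq {a : ℕ} (v : V3) : Psi2 a v = Psi1 a (m21 v) := rfl

theorem Psi_m420 {n a : ℕ} (ha : Adm n a) {v : V3} (hv : ip1 v v = n) :
    Psi2 a (m420 v) = Psi1 a v := by
  rw [Psi2_eq]
  have h := Psi1_sim (s := 1) ha (sim_comp sim_m420 sim_m21) (adm_f4 ha) ?_ hv
  · simpa using h
  intro p hp v iv
  obtain ⟨p1, p2, p3, p4, p5⟩ := adm_p ha hp
  have : Fact p.Prime := ⟨p1⟩
  have e : quadraticChar (ZMod p) (2 * ((2 : ℤ) : ZMod p)) = jacobiSym 1 p := by
    have h20 := c2 (p := p) p2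
    have h3 := qc_mul_self (p := p) h20
    rw [← map_mul] at h3
    push_cast
    rw [h3]
    simp
  rw [← e]
  refine sim_sign frm1 (sim_comp sim_m420 sim_m21) p2 p3 (adm_f4 ha p hp) (l := ![2, 4, -3])
    (m := -2) ⟨0, ?_⟩ (f2 p2) ?_ iv
  · simpa using c2 (p := p) p2
  · intro v
    simp [m420, m21, ip1]
    ring

theorem Psi_m421 {n a : ℕ} (ha : Adm n a) {v : V3} (hv : ip1 v v = n) :
    Psi2 a (m421 v) = Psi1 a v := by
  rw [Psi2_eq]
  have e : m21 (m421 v) = (4 : ℤ) • v := by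
    funext i
    fin_cases i <;> simp [m21, m421] <;> ring
  rw [e]
  unfold Psi1
  refine Finset.prod_congr rfl fun p hp => ?_
  obtain ⟨p1, p2, p3, p4, p5⟩ := adm_p ha hp
  have : Fact p.Prime := ⟨p1⟩
  have f4 : ((4 : ℤ) : ZMod p) ≠ 0 := by
    have h := adm_f4 ha p hp
    norm_num at h ⊢
    exact h
  rw [psi1_smul p2 p3 f4 (iso1' p1 p4 p5 hv), jac_eq]
  have h3 := qc_mul_self (p := p) (c2 (p := p) p2)
  rw [← map_mul] at h3
  have e4 : ((4 : ℤ) : ZMod p) = 2 * 2 := by push_cast; norm_num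
  rw [e4, h3, one_mul]

theorem Psi_m422 {n a : ℕ} (ha : Adm n a) {v : V3} (hv : ip1 v v = n) :
    Psi2 a (m422 v) = jacobiSym 17 a * Psi1 a v := by
  rw [Psi2_eq]
  refine Psi1_sim ha (sim_comp sim_m422 sim_m21) (adm_f4 ha) ?_ hv
  intro p hp v iv
  obtain ⟨p1, p2, p3, p4, p5⟩ := adm_p ha hp
  have : Fact p.Prime := ⟨p1⟩
  rw [← qc34 p2 p3]
  refine sim_sign frm1 (sim_comp sim_m422 sim_m21) p2 p3 (adm_f4 ha p hp) (l := ![1, -1, 1])
    (m := -4) ⟨0, by simp⟩ (f34 p2 p3) ?_ iv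
  intro v
  simp [m422, m21, ip1]
  ring

theorem Psi1_two {n a : ℕ} (ha : Adm n a) {v : V3} (hv : ip1 v v = n) :
    Psi1 a ((2 : ℤ) • v) = jacobiSym 2 a * Psi1 a v := by
  unfold Psi1
  rw [jac_prod ha.1, ← Finset.prod_mul_distrib]
  refine Finset.prod_congr rfl fun p hp => ?_
  obtain ⟨p1, p2, p3, p4, p5⟩ := adm_p ha hp
  have : Fact p.Prime := ⟨p1⟩
  rw [psi1_smul p2 p3 (f2 p2) (iso1' p1 p4 p5 hv)]

theorem Psi2_two {n a : ℕ} (ha : Adm n a) {v : V3} (hv : ip2 v v = n) :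
    Psi2 a ((2 : ℤ) • v) = jacobiSym 2 a * Psi2 a v := by
  unfold Psi2
  rw [jac_prod ha.1, ← Finset.prod_mul_distrib]
  refine Finset.prod_congr rfl fun p hp => ?_
  obtain ⟨p1, p2, p3, p4, p5⟩ := adm_p ha hp
  have : Fact p.Prime := ⟨p1⟩
  rw [psi2_smul p2 p3 (f2 p2) (iso2' p1 p4 p5 hv)]

theorem jac17 {a : ℕ} (h : Odd a) : jacobiSym 17 a = jacobiSym a 17 := by
  have := jacobiSym.quadratic_reciprocity_one_mod_four (a := 17) (b := a) (by norm_num) h
  exact_mod_cast this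

/-- the Hecke relation at `2` with signs (general form) -/
theorem hea {n a : ℕ} (hn : n % 4 = 3) (ha : Adm n a) :
    A1 (4 * n) a = 2 * jacobiSym 17 a * A1 n a + A2 n a - ep2 n * jacobiSym 2 a * A1 n a ∧
      A2 (4 * n) a = (2 + jacobiSym 17 a) * A1 n a - ep2 n * jacobiSym 2 a * A2 n a := by
  constructor
  · have h : ∑ w ∈ vec1 (4 * n), ((if A410 w then Psi1 a w else 0) +
        (if A411 w then Psi1 a w else 0) + (if A412 w then Psi1 a w else 0)) =
        ∑ w ∈ vec1 (4 * n), (Psi1 a w + ep2 n * (if E2 w then Psi1 a w else 0)) := by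
      refine Finset.sum_congr rfl fun w hw => ?_
      have hp := pt4_1 hn (mem_vec1.1 hw)
      have e : ∀ (P : Prop) [Decidable P], (if P then Psi1 a w else 0) =
          (if P then (1 : ℤ) else 0) * Psi1 a w := by
        intro P _
        split_ifs <;> simp
      rw [e, e, e, e]
      linear_combination Psi1 a w * hp
    rw [Finset.sum_add_distrib, Finset.sum_add_distrib, Finset.sum_add_distrib,
      ← Finset.mul_sum, w410, w411, w412, wE2 (fun v => mem_vec1 (n := n)) (fun v => mem_vec1)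
        (by intro v; simp [ip1]; ring)] at h
    have h1 : ∑ v ∈ vec1 n, Psi1 a (m410 v) = jacobiSym 17 a * A1 n a := by
      unfold A1
      rw [Finset.mul_sum]
      exact Finset.sum_congr rfl fun v hv => Psi_m410 ha (mem_vec1.1 hv)
    have h3 : ∑ v ∈ vec1 n, Psi1 a (m411 v) = jacobiSym 17 a * A1 n a := by
      unfold A1
      rw [Finset.mul_sum]
      exact Finset.sum_congr rfl fun v hv => Psi_m411 ha (mem_vec1.1 hv)
    have h4 : ∑ v ∈ vec2 n, Psi1 a (m412 v) = A2 n a := rfl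
    have h5 : ∑ v ∈ vec1 n, Psi1 a ((2 : ℤ) • v) = jacobiSym 2 a * A1 n a := by
      unfold A1
      rw [Finset.mul_sum]
      exact Finset.sum_congr rfl fun v hv => Psi1_two ha (mem_vec1.1 hv)
    rw [h1, h3, h4, h5] at h
    unfold A1 at h ⊢
    linear_combination -h
  · have h : ∑ w ∈ vec2 (4 * n), ((if A420 w then Psi2 a w else 0) +
        (if A421 w then Psi2 a w else 0) + (if A422 w then Psi2 a w else 0)) =
        ∑ w ∈ vec2 (4 * n), (Psi2 a w + ep2 n * (if E2 w then Psi2 a w else 0)) := by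
      refine Finset.sum_congr rfl fun w hw => ?_
      have hp := pt4_2 hn (mem_vec2.1 hw)
      have e : ∀ (P : Prop) [Decidable P], (if P then Psi2 a w else 0) =
          (if P then (1 : ℤ) else 0) * Psi2 a w := by
        intro P _
        split_ifs <;> simp
      rw [e, e, e, e]
      linear_combination Psi2 a w * hp
    rw [Finset.sum_add_distrib, Finset.sum_add_distrib, Finset.sum_add_distrib,
      ← Finset.mul_sum, w420, w421, w422, wE2 (fun v => mem_vec2 (n := n)) (fun v => mem_vec2)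
        (by intro v; simp [ip2]; ring)] at h
    have h1 : ∑ v ∈ vec1 n, Psi2 a (m420 v) = A1 n a :=
      Finset.sum_congr rfl fun v hv => Psi_m420 ha (mem_vec1.1 hv)
    have h3 : ∑ v ∈ vec1 n, Psi2 a (m421 v) = A1 n a :=
      Finset.sum_congr rfl fun v hv => Psi_m421 ha (mem_vec1.1 hv)
    have h4 : ∑ v ∈ vec1 n, Psi2 a (m422 v) = jacobiSym 17 a * A1 n a := by
      unfold A1
      rw [Finset.mul_sum]
      exact Finset.sum_congr rfl fun v hv => Psi_m422 ha (mem_vec1.1 hv)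
    have h5 : ∑ v ∈ vec2 n, Psi2 a ((2 : ℤ) • v) = jacobiSym 2 a * A2 n a := by
      unfold A2
      rw [Finset.mul_sum]
      exact Finset.sum_congr rfl fun v hv => Psi2_two ha (mem_vec2.1 hv)
    rw [h1, h3, h4, h5] at h
    unfold A2 at h ⊢
    linear_combination -h

theorem t_HEA : S_HEA := by
  intro n a hn ha h17
  obtain ⟨h1, h3⟩ := hea hn ha
  rw [jac17 ha.2.1, h17] at h1 h3
  constructor
  · rw [h1]; ring
  · rw [h3]; ring

/-! ### vanishing -/

theorem rot_rot (v : V3) : rot (rot v) = v := by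
  funext i
  fin_cases i <;> simp [rot]

theorem Psi1_rot {n a : ℕ} (ha : Adm n a) {v : V3} (hv : ip1 v v = n) :
    Psi1 a (rot v) = jacobiSym 17 a * Psi1 a v := by
  unfold Psi1
  rw [jac_prod ha.1, ← Finset.prod_mul_distrib]
  refine Finset.prod_congr rfl fun p hp => ?_
  obtain ⟨p1, p2, p3, p4, p5⟩ := adm_p ha hp
  have : Fact p.Prime := ⟨p1⟩
  rw [psi1_rot p2 p3 (iso1' p1 p4 p5 hv)]

theorem Psi2_rot {n a : ℕ} (ha : Adm n a) {v : V3} (hv : ip2 v v = n) :
    Psi2 a (rot v) = jacobiSym 17 a * Psi2 a v := by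
  unfold Psi2
  rw [jac_prod ha.1, ← Finset.prod_mul_distrib]
  refine Finset.prod_congr rfl fun p hp => ?_
  obtain ⟨p1, p2, p3, p4, p5⟩ := adm_p ha hp
  have : Fact p.Prime := ⟨p1⟩
  rw [psi2_rot p2 p3 (iso2' p1 p4 p5 hv)]

theorem ip1_rot (v : V3) : ip1 (rot v) (rot v) = ip1 v v := by
  rw [sim_rot1.iso]; ring

theorem ip2_rot (v : V3) : ip2 (rot v) (rot v) = ip2 v v := by
  rw [sim_rot2.iso]; ring

theorem A_rot {n a : ℕ} (ha : Adm n a) :
    A1 n a = jacobiSym 17 a * A1 n a ∧ A2 n a = jacobiSym 17 a * A2 n a := by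
  constructor
  · unfold A1
    rw [Finset.mul_sum]
    refine Finset.sum_bij' (fun v _ => rot v) (fun v _ => rot v) ?_ ?_ ?_ ?_ ?_
    · intro v hv
      rw [mem_vec1] at hv ⊢
      rw [ip1_rot, hv]
    · intro v hv
      rw [mem_vec1] at hv ⊢
      rw [ip1_rot, hv]
    · intro v _
      exact rot_rot v
    · intro v _
      exact rot_rot v
    · intro v hv
      have hv' := mem_vec1.1 hv
      have h := Psi1_rot ha (v := rot v) (by rw [ip1_rot, hv'])
      rw [rot_rot] at h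
      exact h
  · unfold A2
    rw [Finset.mul_sum]
    refine Finset.sum_bij' (fun v _ => rot v) (fun v _ => rot v) ?_ ?_ ?_ ?_ ?_
    · intro v hv
      rw [mem_vec2] at hv ⊢
      rw [ip2_rot, hv]
    · intro v hv
      rw [mem_vec2] at hv ⊢
      rw [ip2_rot, hv]
    · intro v _
      exact rot_rot v
    · intro v _
      exact rot_rot v
    · intro v hv
      have hv' := mem_vec2.1 hv
      have h := Psi2_rot ha (v := rot v) (by rw [ip2_rot, hv'])
      rw [rot_rot] at h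
      exact h

theorem A_neg {n a : ℕ} (ha : Adm n a) :
    A1 n a = jacobiSym (-1) a * A1 n a ∧ A2 n a = jacobiSym (-1) a * A2 n a := by
  have hk : ∀ p ∈ a.primeFactors, ¬ p ∣ 1 := fun p hp => (adm_p ha hp).1.not_dvd_one
  constructor
  · unfold A1
    rw [Finset.mul_sum]
    refine Finset.sum_bij' (fun v _ => -v) (fun v _ => -v) ?_ ?_ ?_ ?_ ?_
    · intro v hv
      rw [mem_vec1] at hv ⊢
      rw [← hv]
      simp [ip1]
    · intro v hv
      rw [mem_vec1] at hv ⊢
      rw [← hv]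
      simp [ip1]
    · intro v _
      exact neg_neg v
    · intro v _
      exact neg_neg v
    · intro v hv
      have hv' := mem_vec1.1 hv
      have h := Psi1_neg (k := 1) (v := -v) ha hk (by
        rw [← hv'] 
        simp [ip1])
      rw [neg_neg] at h
      exact h
  · unfold A2
    rw [Finset.mul_sum]
    refine Finset.sum_bij' (fun v _ => -v) (fun v _ => -v) ?_ ?_ ?_ ?_ ?_
    · intro v hv
      rw [mem_vec2] at hv ⊢
      rw [← hv]
      simp [ip2]
    · intro v hv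
      rw [mem_vec2] at hv ⊢
      rw [← hv]
      simp [ip2]
    · intro v _
      exact neg_neg v
    · intro v _
      exact neg_neg v
    · intro v hv
      have hv' := mem_vec2.1 hv
      have h := Psi2_neg (k := 1) (v := -v) ha hk (by
        rw [← hv'] 
        simp [ip2])
      rw [neg_neg] at h
      exact h

theorem t_V17 : S_V17 := by
  intro n a ha h17 _
  obtain ⟨h1, h3⟩ := A_rot ha
  rw [jac17 ha.2.1, h17] at h1 h3
  constructor <;> omega

theorem t_V4 : S_V4 := by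
  intro n a ha h4
  obtain ⟨h1, h3⟩ := A_neg ha
  have e : jacobiSym (-1) a = -1 := by
    rw [jacobiSym.at_neg_one (Nat.odd_iff.2 (by omega)), ZMod.χ₄_nat_three_mod_four h4]
  rw [e] at h1 h3
  constructor <;> omega

/-! ### the sum over the divisors -/

theorem sum_div_eq {D : ℕ} (hD : Squarefree D) (f : ℕ → ℤ) :
    ∑ a ∈ D.divisors, ∏ p ∈ a.primeFactors, f p = ∏ p ∈ D.primeFactors, (1 + f p) := by
  rw [Finset.prod_one_add]
  refine Finset.sum_bij' (fun a _ => a.primeFactors) (fun t _ => ∏ p ∈ t, p) ?_ ?_ ?_ ?_ ?_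
  · intro a ha
    rw [Nat.mem_divisors] at ha
    rw [Finset.mem_powerset]
    exact Nat.primeFactors_mono ha.1 ha.2
  · intro t ht
    rw [Finset.mem_powerset] at ht
    rw [Nat.mem_divisors]
    refine ⟨?_, hD.ne_zero⟩
    conv_rhs => rw [← Nat.prod_primeFactors_of_squarefree hD]
    exact Finset.prod_dvd_prod_of_subset _ _ _ ht
  · intro a ha
    rw [Nat.mem_divisors] at ha
    exact Nat.prod_primeFactors_of_squarefree (hD.squarefree_of_dvd ha.1)
  · intro t ht
    rw [Finset.mem_powerset] at ht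
    exact Nat.primeFactors_prod fun p hp => Nat.prime_of_mem_primeFactors (ht hp)
  · intro a _
    rfl

theorem sum_div {D : ℕ} (hD : Squarefree D) (f : ℕ → ℤ)
    (hf : ∀ p ∈ D.primeFactors, f p * f p = 1) :
    (2 : ℤ) ^ D.primeFactors.card ∣ ∑ a ∈ D.divisors, ∏ p ∈ a.primeFactors, f p := by
  rw [sum_div_eq hD, ← Finset.prod_const]
  refine Finset.prod_dvd_prod_of_dvd _ _ fun p hp => ?_
  rcases mul_self_eq_one_iff.1 (hf p hp) with h | h <;> rw [h] <;> norm_num

theorem t_SUM : S_SUM := by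
  intro n D hD
  constructor
  · unfold A1
    rw [Finset.sum_comm]
    refine Finset.dvd_sum fun v hv => ?_
    refine sum_div hD.1 (fun p => psi1 p v) fun p hp => ?_
    obtain ⟨p1, p2, p3, p4, p5⟩ := adm_p hD hp
    have : Fact p.Prime := ⟨p1⟩
    exact psi1_sq p2 p3 (iso1' p1 p4 p5 (mem_vec1.1 hv))
  · unfold A2
    rw [Finset.sum_comm]
    refine Finset.dvd_sum fun v hv => ?_
    refine sum_div hD.1 (fun p => psi2 p v) fun p hp => ?_
    obtain ⟨p1, p2, p3, p4, p5⟩ := adm_p hD hp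
    have : Fact p.Prime := ⟨p1⟩
    exact psi2_sq p2 p3 (iso2' p1 p4 p5 (mem_vec2.1 hv))

end Pool.Agent.N844.P17G
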