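import Mathlib
import Pool.Agent.N844.P17G.HEA
import Pool.Agent.N970.P17G.Sign

/-!
# P17G: the genus characters in the frozen form of `N969/P17G/Defs`
-/

set_option autoImplicit false

namespace Pool.Agent.N844.P17G

open Finset
open Pool.Agent.N969.P15 (V3 ep2)
open Pool.Agent.N972.P17
open Pool.Agent.N973.P17 (mem_vec1 mem_vec2)
open Pool.Agent.N969.P17G (sgp ipx P11 P22 P12 Pr S_HEG S_VANG)
open Pool.Agent.N970.P17G (Sg HasSign)
open Pool.Agent.N575.P17 (m422)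

section one

variable {ip : V3 → V3 → ℤ} (F : Frm ip) {p : ℕ} [hp : Fact p.Prime] (h2 : p ≠ 2) (h17 : p ≠ 17)

include F h2 h17 in
/-- the sign of a pair of vectors in the frozen form -/
theorem sgp_eq {n k : ℕ} {v w : V3} {T : ℤ} (hn : p ∣ n) (hn2 : ¬ p ^ 2 ∣ n) (hk : ¬ p ∣ k)
    (hv : ip v v = n) (hw : ip w w = (k : ℤ) ^ 2 * n) (hT : 2 * T = k * n + ip v w) :
    sgp k n p T = sig ip p v w := by
  have hp0 : (p : ℤ) ≠ 0 := by exact_mod_cast hp.out.ne_zero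
  have kz : ((k : ℤ) : ZMod p) ≠ 0 := by
    rw [Ne, ← dvd_cast]
    intro h
    exact hk (by exact_mod_cast h)
  have iv : Iso ip p v := iso_of F hv (by exact_mod_cast hn) (by
    intro h
    exact hn2 (by exact_mod_cast h))
  have iw : Iso ip p w := iso_of F hw (dvd_mul_of_dvd_right (by exact_mod_cast hn) _)
    (not_sq hp.out hn2 hk)
  have m1 : ((-1 : ℤ) : ZMod p) ≠ 0 := by simp
  have iw' : Iso ip p ((-1 : ℤ) • w) := sim_iso F F (sim_smul F (-1)) h2 h17 m1 iw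
  have hb : ip v ((-1 : ℤ) • w) = - ip v w := by
    have e : (-1 : ℤ) • w = (-1 : ℤ) • w + (0 : ℤ) • w := by rw [zero_smul, add_zero]
    rw [e, F.lin]
    ring
  have hw' : ip ((-1 : ℤ) • w) ((-1 : ℤ) • w) = (k : ℤ) ^ 2 * n := by
    rw [(sim_smul F (-1)).iso, hw]
    ring
  have r1 := sig_rel (c := k) (S := k * n - T) (T := T) F h2 h17 hn hn2 kz hv hw' (by ring)
    (by rw [hb]; linarith)
  have r2 := sig_mul F h2 h17 iv iw iw'
  rw [sig_smul h2 h17 F m1 iw, r1] at r2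
  have r3 : sig ip p v w = quadraticChar (ZMod p) ((-1 : ℤ) : ZMod p) * rel p n (k * n - T) T := by
    rw [← r2]
    have h3 := qc_mul_self m1
    calc sig ip p v w = sig ip p v w * (quadraticChar (ZMod p) ((-1 : ℤ) : ZMod p) *
          quadraticChar (ZMod p) ((-1 : ℤ) : ZMod p)) := by rw [h3, mul_one]
      _ = _ := by ring
  rw [r3, ← jac_eq]
  obtain ⟨n', hn'⟩ := hn
  have hnp : n / p = n' := by rw [hn']; exact Nat.mul_div_cancel_left _ hp.out.pos
  have hn0 : ((n' : ℤ) : ZMod p) ≠ 0 := by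
    rw [Ne, ← dvd_cast]
    intro h
    have h3 : p ∣ n' := by exact_mod_cast h
    obtain ⟨c, hc⟩ := h3
    exact hn2 ⟨c, by rw [hn', hc]; ring⟩
  unfold sgp rel
  rw [hnp]
  by_cases hTp : (p : ℤ) ∣ T
  · by_cases hT2 : (p : ℤ) ∣ T / p
    · simp only [hTp, hT2, not_true_eq_false, if_true, if_false]
      rw [← jacobiSym.mul_left, jac_eq, jac_eq]
      have e : (k * (n : ℤ) - T) / p = k * n' - T / p := by
        obtain ⟨c, hc⟩ := hTp
        rw [hc, hn', Int.mul_ediv_cancel_left _ hp0]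
        push_cast
        have e2 : (k : ℤ) * (p * n') - p * c = p * (k * n' - c) := by ring
        rw [e2, Int.mul_ediv_cancel_left _ hp0]
      rw [e]
      rw [dvd_cast] at hT2
      push_cast at hT2 hn0 kz ⊢
      rw [hT2, sub_zero]
      refine qc_eq (s := (k : ZMod p) * n') (by ring) (neg_ne_zero.2 kz) ?_
      exact mul_ne_zero (by simp) (mul_ne_zero hn0 (mul_ne_zero kz hn0))
    · simp only [hTp, hT2, not_true_eq_false, not_false_eq_true, if_true, if_false]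
      rw [← jacobiSym.mul_left]
      congr 1
      ring
  · simp only [hTp, not_false_eq_true, if_true, if_false]
    rw [← jacobiSym.mul_left]
    congr 1
    ring

end one

/-- the factor `4` does not matter -/
theorem sgp_four {p : ℕ} (hp : p.Prime) (h2 : p ≠ 2) (k n : ℕ) (T : ℤ) :
    sgp k n p (4 * T) = sgp k n p T := by
  have : Fact p.Prime := ⟨hp⟩
  have h4 : ((4 : ℤ) : ZMod p) ≠ 0 := by
    have h := f2 (p := p) h2
    have e : ((4 : ℤ) : ZMod p) = ((2 : ℤ) : ZMod p) * ((2 : ℤ) : ZMod p) := by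
      push_cast; norm_num
    rw [e]
    exact mul_ne_zero h h
  have hj : ∀ x : ℤ, jacobiSym (4 * x) p = jacobiSym x p := by
    intro x
    rw [jacobiSym.mul_left, jac_eq 4]
    have h3 := qc_mul_self (p := p) (f2 h2)
    rw [← map_mul] at h3
    have e : ((4 : ℤ) : ZMod p) = ((2 : ℤ) : ZMod p) * ((2 : ℤ) : ZMod p) := by
      push_cast; norm_num
    rw [e, h3, one_mul]
  have hd : ∀ x : ℤ, (p : ℤ) ∣ 4 * x ↔ (p : ℤ) ∣ x := by
    intro x
    rw [dvd_cast, dvd_cast]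
    push_cast at h4 ⊢
    rw [mul_eq_zero]
    constructor
    · intro h
      exact h.resolve_left h4
    · intro h
      exact Or.inr h
  unfold sgp
  by_cases hT : (p : ℤ) ∣ T
  · rw [if_pos hT, if_pos ((hd T).2 hT)]
    have e : 4 * T / p = 4 * (T / p) := by
      obtain ⟨c, hc⟩ := hT
      have hp0 : (p : ℤ) ≠ 0 := by exact_mod_cast hp.ne_zero
      rw [hc, Int.mul_ediv_cancel_left _ hp0]
      have e2 : 4 * ((p : ℤ) * c) = p * (4 * c) := by ring
      rw [e2, Int.mul_ediv_cancel_left _ hp0]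
    rw [e]
    by_cases h3 : (p : ℤ) ∣ T / p
    · rw [if_pos h3, if_pos ((hd _).2 h3)]
    · rw [if_neg h3, if_neg (fun h => h3 ((hd _).1 h)), mul_assoc, hj]
  · rw [if_neg hT, if_neg (fun h => hT ((hd T).1 h)), hj]

/-- the map from the second to the first lattice underlying `ipx` -/
def mx (w : V3) : V3 := ![w 0 - 3 * w 1 + 2 * w 2, w 0 + w 1, 2 * w 2]

theorem ipx_eq (v w : V3) : ipx v w = ip1 v (mx w) := by
  simp [ipx, ip1, mx]
  ring

theorem sim_mx : Sim ip2 ip1 2 mx where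
  iso := by intro v w; simp [mx, ip1, ip2]; ring
  lin := by
    intro x y v w
    funext i
    fin_cases i <;> simp [mx] <;> ring

theorem m422_mx (w : V3) : m422 (mx w) = (4 : ℤ) • w := by
  funext i
  fin_cases i <;> simp [mx, m422] <;> ring

theorem m21_four (w : V3) : m21 ((4 : ℤ) • w) = (4 : ℤ) • m21 w := by
  funext i
  fin_cases i <;> simp [m21] <;> ring

section cmp

variable {p : ℕ} [hp : Fact p.Prime] (h2 : p ≠ 2) (h17 : p ≠ 17)

include h2 in
theorem f4 : ((4 : ℤ) : ZMod p) ≠ 0 := by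
  have h := f2 (p := p) h2
  have e : ((4 : ℤ) : ZMod p) = ((2 : ℤ) : ZMod p) * ((2 : ℤ) : ZMod p) := by
    push_cast; norm_num
  rw [e]
  exact mul_ne_zero h h

include h2 in
theorem j4 : jacobiSym 4 p = 1 := by
  rw [jac_eq]
  have h3 := qc_mul_self (p := p) (f2 h2)
  rw [← map_mul] at h3
  have e : ((4 : ℤ) : ZMod p) = ((2 : ℤ) : ZMod p) * ((2 : ℤ) : ZMod p) := by
    push_cast; norm_num
  rw [e, h3]

include h2 h17 in
/-- the two normalisations on the second lattice differ by `(17 / p)` -/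
theorem psi_mx {w : V3} (hw : Iso ip2 p w) : psi1 p (mx w) = jacobiSym 17 p * psi2 p w := by
  have iv : Iso ip1 p (mx w) := sim_iso frm2 frm1 sim_mx h2 h17 (f2 h2) hw
  have i21 : Iso ip1 p (m21 w) := sim_iso frm2 frm1 sim_m21 h2 h17 (f2 h2) hw
  have f22 : ((2 * 2 : ℤ) : ZMod p) ≠ 0 := by
    rw [Int.cast_mul]
    exact mul_ne_zero (f2 h2) (f2 h2)
  have e1 := psi1_sim h2 h17 (sim_comp Pool.Agent.N844.P17G.sim_m422 sim_m21) f22 iv
  have e2 : sig ip1 p (mx w) (m21 (m422 (mx w))) = jacobiSym 17 p := by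
    rw [← qc34 h2 h17]
    refine sim_sign frm1 (sim_comp sim_m422 sim_m21) h2 h17 f22 (l := ![1, -1, 1])
      (m := -4) ⟨0, by simp⟩ (f34 h2 h17) ?_ iv
    intro v
    simp [m422, m21, ip1]
    ring
  rw [e2, m422_mx, m21_four, psi1_smul h2 h17 (f4 h2) i21, j4 h2, one_mul] at e1
  -- e1 : psi1 (m21 w) = (17/p) psi1 (mx w)
  have e3 : jacobiSym 17 p * jacobiSym 17 p = 1 := by
    rw [jac_eq]
    refine qc_mul_self ?_
    intro h
    apply f34 (p := p) h2 h17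
    have e : ((34 : ℤ) : ZMod p) = 2 * ((17 : ℤ) : ZMod p) := by push_cast; norm_num
    rw [e, h, mul_zero]
  unfold psi2
  rw [e1, ← mul_assoc, e3, one_mul]

end cmp

/-! ### one prime -/

theorem sg1 {n p k : ℕ} (hp : p.Prime) (h2 : p ≠ 2) (h17 : p ≠ 17) (hn : p ∣ n)
    (hn2 : ¬ p ^ 2 ∣ n) (hk : ¬ p ∣ k) {v w : V3} (hv : ip1 v v = n)
    (hw : ip1 w w = (k : ℤ) ^ 2 * n) :
    sgp k n p ((k * n + ip1 v w) / 2) = psi1 p v * psi1 p w := by
  have : Fact p.Prime := ⟨hp⟩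
  rw [psi1_mul h2 h17 (iso1' hp hn hn2 hv) (iso1 hp hn hn2 hk hw)]
  refine sgp_eq frm1 h2 h17 hn hn2 hk hv hw ?_
  obtain ⟨c, hc⟩ := par1 hv hw
  omega

theorem sg2' {n p k : ℕ} (hp : p.Prime) (h2 : p ≠ 2) (h17 : p ≠ 17) (hn : p ∣ n)
    (hn2 : ¬ p ^ 2 ∣ n) (hk : ¬ p ∣ k) {v w : V3} (hv : ip2 v v = n)
    (hw : ip2 w w = (k : ℤ) ^ 2 * n) :
    sgp k n p ((k * n + ip2 v w) / 2) = psi2 p v * psi2 p w := by
  have : Fact p.Prime := ⟨hp⟩
  rw [psi2_mul h2 h17 (iso2' hp hn hn2 hv) (iso2 hp hn hn2 hk hw)]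
  refine sgp_eq frm2 h2 h17 hn hn2 hk hv hw ?_
  obtain ⟨c, hc⟩ := par2 hv hw
  omega

theorem sgx {n p : ℕ} (hp : p.Prime) (h2 : p ≠ 2) (h17 : p ≠ 17) (hn : p ∣ n)
    (hn2 : ¬ p ^ 2 ∣ n) {v w : V3} (hv : ip1 v v = n) (hw : ip2 w w = n) :
    sgp 2 n p (2 * (2 * n + ipx v w)) = psi1 p v * (jacobiSym 17 p * psi2 p w) := by
  have : Fact p.Prime := ⟨hp⟩
  have hk : ¬ p ∣ 2 := fun h => h2 ((Nat.prime_dvd_prime_iff_eq hp Nat.prime_two).1 h)
  have hw' : ip1 (mx w) (mx w) = ((2 : ℕ) : ℤ) ^ 2 * n := by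
    rw [sim_mx.iso, hw]
    norm_num
  rw [← psi_mx h2 h17 (iso2' hp hn hn2 hw), ← sg1 hp h2 h17 hn hn2 hk hv hw', ipx_eq,
    ← sgp_four hp h2 2 n ((((2 : ℕ) : ℤ) * n + ip1 v (mx w)) / 2)]
  congr 1
  obtain ⟨c, hc⟩ := par1 hv hw'
  push_cast at hc ⊢
  omega

/-- the local signs at an odd prime -/
theorem has_sign {n p : ℕ} (hp : p.Prime) (h2 : p ≠ 2) (h17 : p ≠ 17) (hn : p ∣ n)
    (hn2 : ¬ p ^ 2 ∣ n) : HasSign n p := by
  have hpf : Fact p.Prime := ⟨hp⟩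
  have s1 : ∀ v ∈ vec1 n, (if psi1 p v = -1 then (-1 : ℤ) else 1) = psi1 p v := by
    intro v hv
    have h := psi1_sq h2 h17 (iso1' hp hn hn2 (mem_vec1.1 hv))
    rcases mul_self_eq_one_iff.1 h with h | h <;> rw [h] <;> norm_num
  have s2 : ∀ w ∈ vec2 n, (if jacobiSym 17 p * psi2 p w = -1 then (-1 : ℤ) else 1) =
      jacobiSym 17 p * psi2 p w := by
    intro w hw
    have iw := iso2' hp hn hn2 (mem_vec2.1 hw)
    have h := psi1_sq h2 h17 (sim_iso frm2 frm1 sim_mx h2 h17 (f2 h2) iw)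
    rw [psi_mx h2 h17 iw] at h
    rcases mul_self_eq_one_iff.1 h with h | h <;> rw [h] <;> norm_num
  refine ⟨fun v => if psi1 p v = -1 then -1 else 1,
    fun w => if jacobiSym 17 p * psi2 p w = -1 then -1 else 1, ?_, ?_, ?_, ?_, ?_⟩
  · intro v
    by_cases h : psi1 p v = -1
    · exact Or.inr (if_pos h)
    · exact Or.inl (if_neg h)
  · intro v
    by_cases h : jacobiSym 17 p * psi2 p v = -1
    · exact Or.inr (if_pos h)
    · exact Or.inl (if_neg h)
  · intro v hv w hw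
    unfold Sg
    beta_reduce
    rw [if_neg h2, s1 v hv, s1 w hw]
    have h := sg1 (k := 1) hp h2 h17 hn hn2 hp.not_dvd_one (mem_vec1.1 hv)
      (by rw [mem_vec1.1 hw]; push_cast; ring)
    rw [← h]
    congr 1
    push_cast
    ring_nf
  · intro v hv w hw
    unfold Sg
    beta_reduce
    rw [if_neg h2, s2 v hv, s2 w hw]
    have h := sg2' (k := 1) hp h2 h17 hn hn2 hp.not_dvd_one (mem_vec2.1 hv)
      (by rw [mem_vec2.1 hw]; push_cast; ring)
    have e3 : jacobiSym 17 p * jacobiSym 17 p = 1 := by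
      rw [jac_eq]
      refine qc_mul_self ?_
      intro h
      apply f34 (p := p) h2 h17
      have e : ((34 : ℤ) : ZMod p) = 2 * ((17 : ℤ) : ZMod p) := by push_cast; norm_num
      rw [e, h, mul_zero]
    have e4 : jacobiSym 17 p * psi2 p v * (jacobiSym 17 p * psi2 p w) = psi2 p v * psi2 p w := by
      calc _ = (jacobiSym 17 p * jacobiSym 17 p) * (psi2 p v * psi2 p w) := by ring
        _ = _ := by rw [e3, one_mul]
    rw [e4, ← h]
    congr 1
    push_cast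
    ring_nf
  · intro v hv w hw
    unfold Sg
    beta_reduce
    rw [if_neg h2, s1 v hv, s2 w hw]
    exact sgx hp h2 h17 hn hn2 (mem_vec1.1 hv) (mem_vec2.1 hw)

/-! ### the products -/

theorem P11_eq {n k A : ℕ} (ha : Adm n A) (hk : ∀ p ∈ A.primeFactors, ¬ p ∣ k) :
    P11 k A n = A1 n A * A1 (k ^ 2 * n : ℕ) A := by
  unfold P11 A1
  rw [Finset.sum_mul_sum]
  refine Finset.sum_congr rfl fun v hv => Finset.sum_congr rfl fun w hw => ?_
  unfold Pool.Agent.N969.P17G.sgn Psi1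
  rw [← Finset.prod_mul_distrib]
  refine Finset.prod_congr rfl fun p hp => ?_
  obtain ⟨p1, p2, p3, p4, p5⟩ := adm_p ha hp
  exact sg1 p1 p2 p3 p4 p5 (hk p hp) (mem_vec1.1 hv) (by rw [mem_vec1.1 hw]; push_cast; ring)

theorem P22_eq {n k A : ℕ} (ha : Adm n A) (hk : ∀ p ∈ A.primeFactors, ¬ p ∣ k) :
    P22 k A n = A2 n A * A2 (k ^ 2 * n : ℕ) A := by
  unfold P22 A2
  rw [Finset.sum_mul_sum]
  refine Finset.sum_congr rfl fun v hv => Finset.sum_congr rfl fun w hw => ?_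
  unfold Pool.Agent.N969.P17G.sgn Psi2
  rw [← Finset.prod_mul_distrib]
  refine Finset.prod_congr rfl fun p hp => ?_
  obtain ⟨p1, p2, p3, p4, p5⟩ := adm_p ha hp
  exact sg2' p1 p2 p3 p4 p5 (hk p hp) (mem_vec2.1 hv) (by rw [mem_vec2.1 hw]; push_cast; ring)

theorem P12_eq {n A : ℕ} (ha : Adm n A) : P12 A n = A1 n A * (jacobiSym 17 A * A2 n A) := by
  unfold P12 A1 A2
  have e : jacobiSym 17 A * ∑ v ∈ vec2 n, Psi2 A v = ∑ v ∈ vec2 n, jacobiSym 17 A * Psi2 A v :=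
    Finset.mul_sum _ _ _
  rw [e, Finset.sum_mul_sum]
  refine Finset.sum_congr rfl fun v hv => Finset.sum_congr rfl fun w hw => ?_
  unfold Pool.Agent.N969.P17G.sgn Psi1 Psi2
  rw [jac_prod ha.1, ← Finset.prod_mul_distrib, ← Finset.prod_mul_distrib]
  refine Finset.prod_congr rfl fun p hp => ?_
  obtain ⟨p1, p2, p3, p4, p5⟩ := adm_p ha hp
  exact sgx p1 p2 p3 p4 p5 (mem_vec1.1 hv) (mem_vec2.1 hw)

theorem not_dvd_two {n A : ℕ} (ha : Adm n A) : ∀ p ∈ A.primeFactors, ¬ p ∣ 2 := by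
  intro q hp h
  obtain ⟨p1, p2, -⟩ := adm_p ha hp
  exact p2 ((Nat.prime_dvd_prime_iff_eq p1 Nat.prime_two).1 h)

theorem not_dvd_one' {n A : ℕ} (ha : Adm n A) : ∀ p ∈ A.primeFactors, ¬ p ∣ 1 :=
  fun _ hp => (adm_p ha hp).1.not_dvd_one

theorem pr_n {A m : ℕ} (h : Pr A m) : Cm (A * m) := by
  obtain ⟨⟨a1, a2, a3⟩, ⟨m1, m2, m3⟩, hc⟩ := h
  refine ⟨(Nat.squarefree_mul hc).2 ⟨a1, m1⟩, ?_, ?_⟩
  · rw [Nat.mul_mod, a2, m2]
  · push_cast
    rw [jacobiSym.mul_left, a3, m3]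
    rfl

theorem t_HEG : S_HEG := by
  intro A m h
  have hC := pr_n h
  have h17 := cm17 hC
  have ha := adm_of hC.1 hC.2.1 h17 (Dvd.intro m rfl)
  have hA17 : jacobiSym A 17 = 1 := h.1.2.2
  obtain ⟨e1, e2⟩ := t_HEA (A * m) A hC.2.1 ha hA17
  have e3 : jacobiSym 17 A = 1 := by rw [jac17 ha.2.1, hA17]
  have e4 : ep2 (A * m) * jacobiSym 2 A = ep2 m := by
    have h1 : A % 4 = 1 := h.1.2.1
    have h3 : m % 4 = 3 := h.2.1.2.1
    have h5 : jacobiSym 2 A = if A % 8 = 1 then 1 else -1 := by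
      rw [jacobiSym.at_two ha.2.1, ZMod.χ₈_nat_eq_if_mod_eight]
      have : A % 8 = 1 ∨ A % 8 = 5 := by omega
      rcases this with h | h
      · simp [h, show A % 2 ≠ 0 by omega]
      · simp [h, show A % 2 ≠ 0 by omega]
    rw [h5]
    unfold ep2
    have h6 : (A * m) % 8 = (A % 8) * (m % 8) % 8 := Nat.mul_mod _ _ _
    have h7 : A % 8 = 1 ∨ A % 8 = 5 := by omega
    have h8 : m % 8 = 3 ∨ m % 8 = 7 := by omega
    rcases h7 with h7 | h7 <;> rcases h8 with h8 | h8 <;> rw [h7, h8] at h6 <;>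
      simp [h6, h7, h8]
  have q4 : ((2 ^ 2 * (A * m) : ℕ) : ℤ) = 4 * ((A * m : ℕ) : ℤ) := by push_cast; ring
  rw [P11_eq ha (not_dvd_two ha), P11_eq ha (not_dvd_one' ha), P12_eq ha,
    P22_eq ha (not_dvd_two ha), P22_eq ha (not_dvd_one' ha), q4, e1, e2, e3]
  have q1 : ((1 ^ 2 * (A * m) : ℕ) : ℤ) = ((A * m : ℕ) : ℤ) := by push_cast; ring
  rw [q1]
  constructor
  · linear_combination (-(A1 (A * m : ℕ) A) ^ 2) * e4
  · linear_combination (-(A2 (A * m : ℕ) A) ^ 2) * e4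

theorem t_VANG : S_VANG := by
  intro n A hn hA hc
  have h17 := cm17 hn
  have ha := adm_of hn.1 hn.2.1 h17 hA
  have q1 : ((1 ^ 2 * n : ℕ) : ℤ) = (n : ℤ) := by push_cast; ring
  rw [P11_eq ha (not_dvd_one' ha), P22_eq ha (not_dvd_one' ha), q1]
  obtain ⟨r1, r2⟩ := A_rot ha
  obtain ⟨s1, s2⟩ := A_neg ha
  have hodd : A % 2 = 1 := Nat.odd_iff.1 ha.2.1
  have key : A1 n A = 0 ∧ A2 n A = 0 := by
    by_cases h4 : A % 4 = 1
    · have hj : jacobiSym A 17 ≠ 1 := fun h => hc ⟨ha.1, h4, h⟩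
      have hj0 : jacobiSym A 17 ≠ 0 := by
        rw [Ne, jacobiSym.eq_zero_iff]
        rintro ⟨-, h⟩
        apply h
        rw [Int.gcd_natCast_natCast]
        exact (((Nat.Prime.coprime_iff_not_dvd (by norm_num)).2 ha.2.2.1).symm)
      have hj1 : jacobiSym A 17 = -1 := by
        rcases jacobiSym.trichotomy (A : ℤ) 17 with h | h | h
        · exact absurd h hj0
        · exact absurd h hj
        · exact h
      rw [jac17 ha.2.1, hj1] at r1 r2
      constructor <;> omega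
    · have e : jacobiSym (-1) A = -1 := by
        rw [jacobiSym.at_neg_one ha.2.1, ZMod.χ₄_nat_three_mod_four (by omega)]
      rw [e] at s1 s2
      constructor <;> omega
  rw [key.1, key.2]
  constructor <;> ring

end Pool.Agent.N844.P17G
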