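import Pool.Agent.N973.P17G.EIS
import Pool.Agent.N973.P17G.SY
import Pool.Agent.N970.P17G.Ort
import Pool.Agent.N971.PG.C1
import Pool.Agent.N816.P17.Flip
import Pool.Agent.N816.P17.Crit
import Pool.Agent.N855.P17.Par
import Pool.Agent.N972.P17.Fin
import Pool.Agent.N218.P17G.Even
import Pool.Agent.N809.PG.Cnf
import Pool.Agent.N844.P17G.Fz

/-!
# P17G: non-vanishing of the value `Gg A 1 1 3` for odd `A`
-/

set_option autoImplicit false

namespace Pool.Agent.N844.P17G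

open Finset
open Pool.Agent.N969.P15 (V3 ep2)
open Pool.Agent.N972.P17
open Pool.Agent.N969.P17G
open Pool.Agent.N218.P17G (exists_aux)

theorem s_CNFG : S_CNFG := Pool.Agent.N809.PG.t_CNFG f_CNF

/-- PAR -/
theorem s_PAR : S_PAR := Pool.Agent.N855.P17.t_PAR' f_U1 f_U3 f_R Pool.Agent.N816.P17.Crit.t_SxSc
  fun _ hs h4 => Pool.Agent.N816.P17.Crit.Ts_Qc hs h4

/-- the proportionality -/
theorem kapg_odd {A m : ℕ} (h : Pr A m) (h1 : 1 < A) :
    8 * P11 1 A (A * m) = - (Gg A 1 1 3 * cc m ^ 2) :=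
  Pool.Agent.N973.P17G.kapg f_PC t_HEG Pool.Agent.N971.PG.t_C1AG
    Pool.Agent.N971.PG.t_C1BG Pool.Agent.N816.P17.Flip.t_C2AG Pool.Agent.N816.P17.Flip.t_C2BG
    s_CNFG Pool.Agent.N973.P17G.t_SY Pool.Agent.N970.P17G.t_ORTG f_DIAG h h1

theorem s_KAPG : S_KAPG :=
  Pool.Agent.N973.P17G.t_KAPG f_PC t_HEG Pool.Agent.N971.PG.t_C1AG
    Pool.Agent.N971.PG.t_C1BG Pool.Agent.N816.P17.Flip.t_C2AG Pool.Agent.N816.P17.Flip.t_C2BG
    s_CNFG Pool.Agent.N973.P17G.t_SY Pool.Agent.N970.P17G.t_ORTG f_DIAG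

/-- PARG -/
theorem s_PARG (hZ : S_ZZ) : S_PARG :=
  Pool.Agent.N218.P17G.t_PARG Pool.Agent.N970.P17G.t_ORTG t_VANG s_KAPG s_PAR
    Pool.Agent.N816.P17.Crit.t_SxSc f_R hZ

/-- **the criterion implies the non-vanishing of the constant**, odd `A` -/
theorem odd_core (hZ : S_ZZ) : ∀ A : ℕ, Cp A → 1 < A → Sx A → Gg A 1 1 3 ≠ 0 := by
  intro A hA h1 hSx h0
  obtain ⟨l, hl, hlm, hlA⟩ := exists_aux A (by omega)
  obtain ⟨y, hy, hyS⟩ := s_PARG hZ A l hA h1 hl hlm hlA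
  have hcop : Nat.Coprime A l := Nat.coprime_comm.1 ((Nat.Prime.coprime_iff_not_dvd hl).2 hlA)
  have h2 := kapg_odd (A := A) (m := l) ⟨hA, hlm, hcop⟩ h1
  rw [h0, hy] at h2
  have h3 : ((2 ^ (A.primeFactors.card - 1) * y) ^ 2 : ℤ) = 0 := by linarith
  have h4 : y = 0 := by
    have h5 := pow_eq_zero_iff (two_ne_zero) |>.1 h3
    rcases mul_eq_zero.1 h5 with h6 | h6
    · exact absurd h6 (by positivity)
    · exact h6
  have h5 := hyS.2 hSx
  rw [h4] at h5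
  exact absurd h5 (by decide)

end Pool.Agent.N844.P17G
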